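import Mathlib

/-! Definitions for bounds on the mean of `k`th records from symmetric parents. -/

namespace V11309.KRec

open MeasureTheory ProbabilityTheory Set

noncomputable section

/-- Density of the `n`th `k`th record value of a uniform parent on `(0,1)`. -/
def dens (k n : ℕ) (x : ℝ) : ℝ :=
  (k : ℝ) ^ (n + 1) / (n.factorial : ℝ) * (-Real.log (1 - x)) ^ n * (1 - x) ^ (k - 1)

/-- Quantile function `F⁻¹` of the law `ν`. -/
def quant (ν : Measure ℝ) (u : ℝ) : ℝ := sInf {x : ℝ | u ≤ cdf ν x}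

/-- Mean of the law `ν`. -/
def mean (ν : Measure ℝ) : ℝ := ∫ x, x ∂ν

/-- Variance of the law `ν`. -/
def var (ν : Measure ℝ) : ℝ := ∫ x, (x - mean ν) ^ 2 ∂ν

/-- Mean of the `n`th `k`th record value from the parent law `ν`. -/
def recMean (k n : ℕ) (ν : Measure ℝ) : ℝ := ∫ u in (0 : ℝ)..1, quant ν u * dens k n u

/-- The class `𝒮`: continuous distribution function, finite positive variance, symmetry about the
mean. -/
structure SymParent (ν : Measure ℝ) : Prop where
  prob : IsProbabilityMeasure ν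
  cont : Continuous (cdf ν)
  sq : Integrable (fun x => x ^ 2) ν
  var_pos : 0 < var ν
  symm : ∀ t, cdf ν (mean ν + t) + cdf ν (mean ν - t) = 1

/-- The numbers `(E_F R - μ_F) / σ_F`, `F ∈ 𝒮`. -/
def ratios (k n : ℕ) : Set ℝ :=
  {r | ∃ ν : Measure ℝ, SymParent ν ∧ r = (recMean k n ν - mean ν) / √(var ν)}

/-- `s(x) = f(x) - f(1-x)`. -/
def sfun (k n : ℕ) (x : ℝ) : ℝ := dens k n x - dens k n (1 - x)

end

end V11309.KRec
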