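import Pool.Agent.V11309.KRec.Defs

/-! Quantile functions of continuous laws. -/

namespace V11309.KRec

open MeasureTheory ProbabilityTheory Set Filter Topology

/-- uniform measure on `(0,1)`. -/
noncomputable abbrev UU : Measure ℝ := volume.restrict (Ioo (0 : ℝ) 1)

instance : IsProbabilityMeasure UU := ⟨by simp [UU]⟩

lemma quant_le_iff {ν : Measure ℝ} (hc : Continuous (cdf ν)) {u : ℝ} (h0 : 0 < u) (h1 : u < 1) (x : ℝ) :
    quant ν u ≤ x ↔ u ≤ cdf ν x := by
  have hne : {x : ℝ | u ≤ cdf ν x}.Nonempty := by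
    obtain ⟨y, hy⟩ := ((tendsto_cdf_atTop ν).eventually (lt_mem_nhds h1)).exists
    exact ⟨y, hy.le⟩
  have hbdd : BddBelow {x : ℝ | u ≤ cdf ν x} := by
    obtain ⟨y, hy⟩ := ((tendsto_cdf_atBot ν).eventually (gt_mem_nhds h0)).exists
    refine ⟨y, fun x hx => ?_⟩
    by_contra hcon
    push Not at hcon
    have h2 : u ≤ cdf ν x := hx
    have h3 := monotone_cdf ν hcon.le
    linarith
  have hcl : IsClosed {x : ℝ | u ≤ cdf ν x} := isClosed_le continuous_const hc
  constructor
  · intro h
    have h2 : u ≤ cdf ν (sInf {x : ℝ | u ≤ cdf ν x}) := hcl.csInf_mem hne hbdd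
    exact h2.trans (monotone_cdf ν h)
  · intro h
    exact csInf_le hbdd h

lemma cdf_quant {ν : Measure ℝ} (hc : Continuous (cdf ν)) {u : ℝ} (h0 : 0 < u) (h1 : u < 1) :
    cdf ν (quant ν u) = u := by
  apply le_antisymm _ ((quant_le_iff hc h0 h1 _).mp le_rfl)
  have h2 : ∀ᶠ x in 𝓝[<] (quant ν u), cdf ν x ≤ u := by
    filter_upwards [self_mem_nhdsWithin] with x hx
    by_contra hcon
    push Not at hcon
    have := (quant_le_iff hc h0 h1 x).mpr hcon.le
    have hx' : x < quant ν u := hx
    linarith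
  have h3 : Tendsto (cdf ν) (𝓝[<] (quant ν u)) (𝓝 (cdf ν (quant ν u))) :=
    (hc.tendsto _).mono_left nhdsWithin_le_nhds
  exact le_of_tendsto h3 h2

lemma quant_mono {ν : Measure ℝ} (hc : Continuous (cdf ν)) : MonotoneOn (quant ν) (Ioo 0 1) := by
  intro u hu v hv huv
  rw [quant_le_iff hc hu.1 hu.2]
  exact huv.trans ((quant_le_iff hc hv.1 hv.2 _).mp le_rfl)

lemma aemeas_quant {ν : Measure ℝ} (hc : Continuous (cdf ν)) : AEMeasurable (quant ν) UU :=
  aemeasurable_restrict_of_monotoneOn measurableSet_Ioo (quant_mono hc)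

lemma vol_Iic {c : ℝ} (h1 : c ≤ 1) : UU (Iic c) = ENNReal.ofReal c := by
  rw [UU, Measure.restrict_apply measurableSet_Iic]
  rcases h1.eq_or_lt with h | h
  · have : Iic c ∩ Ioo 0 1 = Ioo (0 : ℝ) 1 := by
      rw [h]
      exact inter_eq_right.mpr fun x hx => hx.2.le
    rw [this, h]
    simp
  · have : Iic c ∩ Ioo 0 1 = Ioc (0 : ℝ) c := by
      ext x
      simp only [mem_inter_iff, mem_Iic, mem_Ioo, mem_Ioc]
      constructor
      · rintro ⟨a, b, _⟩
        exact ⟨b, a⟩
      · rintro ⟨a, b⟩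
        exact ⟨b, a, by linarith⟩
    rw [this, Real.volume_Ioc, sub_zero]

lemma map_quant {ν : Measure ℝ} [IsProbabilityMeasure ν] (hc : Continuous (cdf ν)) : UU.map (quant ν) = ν := by
  have : IsProbabilityMeasure (UU.map (quant ν)) :=
    Measure.isProbabilityMeasure_map (aemeas_quant hc)
  apply Measure.ext_of_Iic
  intro x
  rw [Measure.map_apply_of_aemeasurable (aemeas_quant hc) measurableSet_Iic, ← ofReal_cdf,
    ← vol_Iic (cdf_le_one ν x)]
  have h : quant ν ⁻¹' Iic x =ᵐ[UU] Iic (cdf ν x) := by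
    have h2 : ∀ᵐ u ∂UU, u ∈ Ioo (0 : ℝ) 1 := ae_restrict_mem measurableSet_Ioo
    filter_upwards [h2] with u hu
    exact propext (quant_le_iff hc hu.1 hu.2 x)
  exact measure_congr h

lemma hhalf (G : ℝ → ℝ) (hG : IntervalIntegrable G volume 0 1) :
    ∫ u in (0 : ℝ)..1, G u = ∫ u in (1 / 2 : ℝ)..1, (G u + G (1 - u)) := by
  have m1 : (1 / 2 : ℝ) ∈ uIcc (0 : ℝ) 1 := by
    rw [uIcc_of_le zero_le_one]
    exact ⟨by norm_num, by norm_num⟩
  have i1 : IntervalIntegrable G volume 0 (1 / 2) := hG.mono_set (uIcc_subset_uIcc_left m1)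
  have i2 : IntervalIntegrable G volume (1 / 2) 1 := hG.mono_set (uIcc_subset_uIcc_right m1)
  have i3 : IntervalIntegrable (fun u => G (1 - u)) volume (1 / 2) 1 := by
    have := (i1.comp_sub_left 1).symm
    norm_num at this
    convert this using 1
  rw [intervalIntegral.integral_add i2 i3, intervalIntegral.integral_comp_sub_left,
    ← intervalIntegral.integral_add_adjacent_intervals i1 i2]
  norm_num
  ring

/-- Reduction of the functionals to the half interval. -/
theorem reduce {ν : Measure ℝ} (h : SymParent ν) {f : ℝ → ℝ} (hf : ContinuousOn f (Icc 0 1))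
    (hf1 : ∫ x in (0 : ℝ)..1, f x = 1) :
    ∃ g : ℝ → ℝ, MonotoneOn g (Ioo (1 / 2) 1) ∧ (∀ u ∈ Ioo (1 / 2 : ℝ) 1, 0 ≤ g u) ∧
      MemLp g 2 (volume.restrict (Ioo (1 / 2) 1)) ∧
      var ν = 2 * ∫ u in Ioo (1 / 2 : ℝ) 1, g u ^ 2 ∧
      (∫ u in (0 : ℝ)..1, quant ν u * f u) - mean ν =
        ∫ u in Ioo (1 / 2 : ℝ) 1, g u * (f u - f (1 - u)) := by
  have := h.prob
  have hc := h.cont
  have hmeas := aemeas_quant hc
  have hmap := map_quant hc
  set μ := mean ν with hμ
  set g : ℝ → ℝ := fun u => quant ν u - μ with hg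
  have hLp : MemLp (quant ν) 2 UU := by
    have h1 : MemLp (id : ℝ → ℝ) 2 ν := by
      rw [memLp_two_iff_integrable_sq aestronglyMeasurable_id]
      exact h.sq
    rw [← hmap] at h1
    exact (memLp_map_measure_iff aestronglyMeasurable_id hmeas).mp h1
  have hgLp : MemLp g 2 UU := hLp.sub (memLp_const μ)
  have hgint : Integrable g UU := hgLp.integrable (by norm_num)
  have hint : Integrable (quant ν) UU := hLp.integrable (by norm_num)
  -- mean
  have hmean : ∫ u, quant ν u ∂UU = μ := by
    rw [hμ, mean]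
    conv_rhs => rw [← hmap]
    exact (integral_map hmeas (f := fun x => x) aestronglyMeasurable_id).symm
  have hgmean : ∫ u, g u ∂UU = 0 := by
    rw [hg, integral_sub hint (integrable_const μ), hmean]
    simp
  -- variance
  have hvar : var ν = ∫ u, g u ^ 2 ∂UU := by
    rw [var]
    conv_lhs => rw [← hmap]
    rw [integral_map hmeas (by fun_prop)]
    simp only [hmap]
    rfl
  -- antisymmetry
  have hle : ∀ u ∈ Ioo (0 : ℝ) 1, g u + g (1 - u) ≤ 0 := by
    intro u hu
    have h1 := h.symm (quant ν u - μ)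
    rw [← hμ, add_sub_cancel, cdf_quant hc hu.1 hu.2] at h1
    have h2 : quant ν (1 - u) ≤ μ - (quant ν u - μ) := by
      rw [quant_le_iff hc (by linarith [hu.2]) (by linarith [hu.1])]
      linarith
    simp only [hg]
    linarith
  have hII : IntervalIntegrable g volume 0 1 := by
    rw [intervalIntegrable_iff_integrableOn_Ioo_of_le zero_le_one]
    exact hgint
  have hII' : IntervalIntegrable (fun u => g (1 - u)) volume 0 1 := by
    have := (hII.comp_sub_left 1).symm
    simpa using this
  have hanti : ∀ᵐ u ∂UU, g (1 - u) = - g u := by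
    have h1 : Integrable (fun u => -(g u + g (1 - u))) UU := by
      have h2 := (hII.add hII').neg
      rw [intervalIntegrable_iff_integrableOn_Ioo_of_le zero_le_one] at h2
      exact h2
    have h2 : 0 ≤ᵐ[UU] fun u => -(g u + g (1 - u)) := by
      have h3 : ∀ᵐ u ∂UU, u ∈ Ioo (0 : ℝ) 1 := ae_restrict_mem measurableSet_Ioo
      filter_upwards [h3] with u hu
      have := hle u hu
      simp only [Pi.zero_apply]
      linarith
    have h3 : ∫ u, -(g u + g (1 - u)) ∂UU = 0 := by
      rw [integral_neg, neg_eq_zero]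
      have e1 : ∫ u, (g u + g (1 - u)) ∂UU = ∫ u in (0 : ℝ)..1, (g u + g (1 - u)) := by
        rw [intervalIntegral.integral_of_le zero_le_one, integral_Ioc_eq_integral_Ioo]
      rw [e1, intervalIntegral.integral_add hII hII', intervalIntegral.integral_comp_sub_left]
      have e2 : ∫ u in (0 : ℝ)..1, g u = 0 := by
        rw [intervalIntegral.integral_of_le zero_le_one, integral_Ioc_eq_integral_Ioo]
        exact hgmean
      simp [e2]
    have h4 := (integral_eq_zero_iff_of_nonneg_ae h2 h1).mp h3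
    filter_upwards [h4] with u hu
    simp only [Pi.zero_apply] at hu
    linarith
  -- restriction to the upper half
  have hsub : Ioo (1 / 2 : ℝ) 1 ⊆ Ioo 0 1 := Ioo_subset_Ioo (by norm_num) le_rfl
  have hae : ∀ᵐ u ∂(volume.restrict (Ioo (1 / 2 : ℝ) 1)), g (1 - u) = - g u :=
    ae_restrict_of_ae_restrict_of_subset hsub hanti
  have toInt : ∀ G H : ℝ → ℝ, (∀ᵐ u ∂(volume.restrict (Ioo (1 / 2 : ℝ) 1)), G u = H u) →
      ∫ u in (1 / 2 : ℝ)..1, G u = ∫ u in Ioo (1 / 2 : ℝ) 1, H u := by
    intro G H hGH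
    rw [intervalIntegral.integral_of_le (by norm_num), integral_Ioc_eq_integral_Ioo]
    exact integral_congr_ae hGH
  have hfb : ∃ C, ∀ x ∈ Icc (0 : ℝ) 1, ‖f x‖ ≤ C := isCompact_Icc.exists_bound_of_continuousOn hf
  obtain ⟨C, hC⟩ := hfb
  have hfm : AEStronglyMeasurable f UU :=
    (hf.mono Ioo_subset_Icc_self).aestronglyMeasurable measurableSet_Ioo
  have hfC : ∀ᵐ u ∂UU, ‖f u‖ ≤ C := by
    have h3 : ∀ᵐ u ∂UU, u ∈ Ioo (0 : ℝ) 1 := ae_restrict_mem measurableSet_Ioo
    filter_upwards [h3] with u hu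
    exact hC u ⟨hu.1.le, hu.2.le⟩
  have hgf : Integrable (fun u => g u * f u) UU := hgint.mul_bdd hfm hfC
  have hqf : Integrable (fun u => quant ν u * f u) UU := hint.mul_bdd hfm hfC
  have hfi : IntervalIntegrable f volume 0 1 := by
    apply ContinuousOn.intervalIntegrable
    rw [uIcc_of_le zero_le_one]
    exact hf
  refine ⟨g, ?_, ?_, ?_, ?_, ?_⟩
  · intro u hu v hv huv
    have := quant_mono hc (hsub hu) (hsub hv) huv
    simp only [hg]
    linarith
  · intro u hu
    by_contra hcon
    push Not at hcon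
    have h1 := h.symm 0
    rw [add_zero, sub_zero, ← hμ] at h1
    have h2 := monotone_cdf ν (show quant ν u ≤ μ by simp only [hg] at hcon; linarith)
    rw [cdf_quant hc (hsub hu).1 (hsub hu).2] at h2
    linarith [hu.1]
  · exact hgLp.mono_measure (Measure.restrict_mono hsub le_rfl)
  · rw [hvar]
    have h1 : IntervalIntegrable (fun u => g u ^ 2) volume 0 1 := by
      rw [intervalIntegrable_iff_integrableOn_Ioo_of_le zero_le_one]
      exact hgLp.integrable_sq
    have h2 : ∫ u, g u ^ 2 ∂UU = ∫ u in (0 : ℝ)..1, g u ^ 2 := by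
      rw [intervalIntegral.integral_of_le zero_le_one, integral_Ioc_eq_integral_Ioo]
    rw [h2, hhalf _ h1, ← integral_const_mul]
    apply toInt
    filter_upwards [hae] with u hu
    rw [hu]
    ring
  · have h1 : IntervalIntegrable (fun u => g u * f u) volume 0 1 := by
      rw [intervalIntegrable_iff_integrableOn_Ioo_of_le zero_le_one]
      exact hgf
    have h2 : (∫ u in (0 : ℝ)..1, quant ν u * f u) - μ = ∫ u in (0 : ℝ)..1, g u * f u := by
      have h3 : ∫ u in (0 : ℝ)..1, g u * f u =
          ∫ u in (0 : ℝ)..1, (quant ν u * f u - μ * f u) := by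
        apply intervalIntegral.integral_congr
        intro u _
        simp only [hg]
        ring
      have h4 : IntervalIntegrable (fun u => quant ν u * f u) volume 0 1 := by
        rw [intervalIntegrable_iff_integrableOn_Ioo_of_le zero_le_one]
        exact hqf
      rw [h3, intervalIntegral.integral_sub h4 (hfi.const_mul μ),
        intervalIntegral.integral_const_mul, hf1, mul_one]
    rw [h2, hhalf _ h1]
    apply toInt
    filter_upwards [hae] with u hu
    rw [hu]
    ring

/-- Realisation of an increasing function as a quantile function. -/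
theorem realize {g f : ℝ → ℝ} (hgc : ContinuousOn g (Icc 0 1)) (hgm : StrictMonoOn g (Icc 0 1))
    (hgs : ∀ u ∈ Icc (0 : ℝ) 1, g (1 - u) = - g u) (hf : ContinuousOn f (Icc 0 1))
    (hpos : 0 < ∫ u in Ioo (1 / 2 : ℝ) 1, g u ^ 2) :
    ∃ ν : Measure ℝ, SymParent ν ∧ mean ν = 0 ∧
      var ν = 2 * (∫ u in Ioo (1 / 2 : ℝ) 1, g u ^ 2) ∧
      (∫ u in (0 : ℝ)..1, quant ν u * f u) =
        ∫ u in Ioo (1 / 2 : ℝ) 1, g u * (f u - f (1 - u)) := by
  have hmeas : AEMeasurable g UU :=
    ((hgc.mono Ioo_subset_Icc_self).aestronglyMeasurable measurableSet_Ioo).aemeasurable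
  set ν := UU.map g with hν
  have hprob : IsProbabilityMeasure ν := Measure.isProbabilityMeasure_map hmeas
  have hin : ∀ᵐ u ∂UU, u ∈ Ioo (0 : ℝ) 1 := ae_restrict_mem measurableSet_Ioo
  -- cdf at `g u`
  have hcdf : ∀ u ∈ Ioo (0 : ℝ) 1, cdf ν (g u) = u := by
    intro u hu
    have h1 : ν (Iic (g u)) = ENNReal.ofReal u := by
      rw [hν, Measure.map_apply_of_aemeasurable hmeas measurableSet_Iic, ← vol_Iic hu.2.le]
      apply measure_congr
      filter_upwards [hin] with v hv
      apply propext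
      exact hgm.le_iff_le ⟨hv.1.le, hv.2.le⟩ ⟨hu.1.le, hu.2.le⟩
    rw [cdf_eq_real, Measure.real, h1, ENNReal.toReal_ofReal hu.1.le]
  -- quantile
  have hquant : ∀ u ∈ Ioo (0 : ℝ) 1, quant ν u = g u := by
    intro u hu
    have h1 : {x : ℝ | u ≤ cdf ν x} = Ici (g u) := by
      ext x
      simp only [mem_setOf_eq, mem_Ici]
      constructor
      · intro h
        by_contra hcon
        push Not at hcon
        have h2 : ContinuousAt g u := hgc.continuousAt (Icc_mem_nhds hu.1 hu.2)
        have h3 : ∀ᶠ v in 𝓝[<] u, x < g v :=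
          (h2.tendsto.mono_left nhdsWithin_le_nhds).eventually (lt_mem_nhds hcon)
        have h4 : ∀ᶠ v in 𝓝[<] u, v ∈ Ioo 0 u := Ioo_mem_nhdsLT hu.1
        obtain ⟨v, hv1, hv2⟩ := (h3.and h4).exists
        have h5 := monotone_cdf ν hv1.le
        rw [hcdf v ⟨hv2.1, hv2.2.trans hu.2⟩] at h5
        linarith [hv2.2]
      · intro h
        have := monotone_cdf ν h
        rwa [hcdf u hu] at this
    rw [quant, h1, csInf_Ici]
  -- no atoms
  have hatom : ∀ a, ν {a} = 0 := by
    intro a
    rw [hν, Measure.map_apply_of_aemeasurable hmeas (measurableSet_singleton a), UU,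
      Measure.restrict_apply₀' measurableSet_Ioo.nullMeasurableSet]
    apply Set.Subsingleton.measure_zero
    rintro x ⟨hx1, hx2⟩ y ⟨hy1, hy2⟩
    apply hgm.injOn ⟨hx2.1.le, hx2.2.le⟩ ⟨hy2.1.le, hy2.2.le⟩
    rw [mem_preimage, mem_singleton_iff] at hx1 hy1
    rw [hx1, hy1]
  have hcont : Continuous (cdf ν) := by
    rw [continuous_iff_continuousAt]
    intro a
    rw [(monotone_cdf ν).continuousAt_iff_leftLim_eq_rightLim, StieltjesFunction.rightLim_eq]
    apply le_antisymm ((monotone_cdf ν).leftLim_le le_rfl)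
    have h1 : (cdf ν).measure {a} = 0 := by rw [measure_cdf, hatom]
    rw [StieltjesFunction.measure_singleton, ENNReal.ofReal_eq_zero] at h1
    linarith
  have hgc' : ContinuousOn (fun u => g u ^ 2) (Icc 0 1) := hgc.pow 2
  have hII : IntervalIntegrable g volume 0 1 := by
    apply ContinuousOn.intervalIntegrable
    rw [uIcc_of_le zero_le_one]
    exact hgc
  have hII2 : IntervalIntegrable (fun u => g u ^ 2) volume 0 1 := by
    apply ContinuousOn.intervalIntegrable
    rw [uIcc_of_le zero_le_one]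
    exact hgc'
  have hsub : Ioo (1 / 2 : ℝ) 1 ⊆ Ioo 0 1 := Ioo_subset_Ioo (by norm_num) le_rfl
  have hmean : mean ν = 0 := by
    rw [mean, hν, integral_map hmeas (f := fun x => x) aestronglyMeasurable_id]
    have h2 : ∫ u, g u ∂UU = ∫ u in (0 : ℝ)..1, g u := by
      rw [intervalIntegral.integral_of_le zero_le_one, integral_Ioc_eq_integral_Ioo]
    rw [h2, hhalf _ hII]
    apply intervalIntegral.integral_zero_ae
    refine Eventually.of_forall fun u hu => ?_
    rw [uIoc_of_le (by norm_num)] at hu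
    rw [hgs u ⟨by linarith [hu.1], hu.2⟩]
    ring
  have toInt : ∀ G H : ℝ → ℝ, (∀ u ∈ Ioo (1 / 2 : ℝ) 1, G u = H u) →
      ∫ u in (1 / 2 : ℝ)..1, G u = ∫ u in Ioo (1 / 2 : ℝ) 1, H u := by
    intro G H hGH
    rw [intervalIntegral.integral_of_le (by norm_num), integral_Ioc_eq_integral_Ioo]
    exact setIntegral_congr_fun measurableSet_Ioo hGH
  have hvar : var ν = 2 * (∫ u in Ioo (1 / 2 : ℝ) 1, g u ^ 2) := by
    rw [var, hmean, hν, integral_map hmeas (by fun_prop)]
    have h2 : ∫ u, (g u - 0) ^ 2 ∂UU = ∫ u in (0 : ℝ)..1, g u ^ 2 := by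
      rw [intervalIntegral.integral_of_le zero_le_one, integral_Ioc_eq_integral_Ioo]
      simp
    rw [h2, hhalf _ hII2, ← integral_const_mul]
    apply toInt
    intro u hu
    rw [hgs u ⟨(hsub hu).1.le, hu.2.le⟩]
    ring
  refine ⟨ν, ⟨hprob, hcont, ?_, ?_, ?_⟩, hmean, hvar, ?_⟩
  · rw [hν, integrable_map_measure (by fun_prop) hmeas]
    rw [intervalIntegrable_iff_integrableOn_Ioo_of_le zero_le_one] at hII2
    exact hII2
  · rw [hvar]
    linarith
  · -- symmetry
    intro t
    rw [hmean, zero_add, zero_sub]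
    have hkey : ∀ t, 0 ≤ t → cdf ν t + cdf ν (-t) = 1 := by
      intro t ht
      rcases lt_or_ge t (g 1) with h1 | h1
      · have h2 : g 0 < t := by
          have h3 := hgs 0 ⟨le_rfl, zero_le_one⟩
          rw [sub_zero] at h3
          have h4 := hgm ⟨le_rfl, zero_le_one⟩ ⟨zero_le_one, le_rfl⟩ (zero_lt_one)
          linarith
        obtain ⟨u, hu, hut⟩ := intermediate_value_Ioo zero_le_one hgc ⟨h2, h1⟩
        rw [← hut, ← hgs u ⟨hu.1.le, hu.2.le⟩, hcdf u hu,
          hcdf (1 - u) ⟨by linarith [hu.2], by linarith [hu.1]⟩]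
        ring
      · have h2 : ν (Iic t) = 1 := by
          rw [hν, Measure.map_apply_of_aemeasurable hmeas measurableSet_Iic,
            ← prob_compl_eq_zero_iff₀]
          · apply measure_mono_null (t := (Ioo (0 : ℝ) 1)ᶜ)
            · intro v hv hv2
              apply hv
              have := hgm ⟨hv2.1.le, hv2.2.le⟩ ⟨zero_le_one, le_rfl⟩ hv2.2
              exact this.le.trans h1
            · rw [← mem_ae_iff]
              exact hin
          · exact hmeas.nullMeasurableSet_preimage measurableSet_Iic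
        have h3 : ν (Iic (-t)) = 0 := by
          rw [hν, Measure.map_apply_of_aemeasurable hmeas measurableSet_Iic]
          apply measure_mono_null (t := (Ioo (0 : ℝ) 1)ᶜ)
          · intro v hv hv2
            have h4 := hgm ⟨le_rfl, zero_le_one⟩ ⟨hv2.1.le, hv2.2.le⟩ hv2.1
            have h5 := hgs 0 ⟨le_rfl, zero_le_one⟩
            rw [sub_zero] at h5
            have h6 : g v ≤ -t := hv
            linarith
          · rw [← mem_ae_iff]
            exact hin
        rw [cdf_eq_real, cdf_eq_real, Measure.real, Measure.real, h2, h3]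
        simp
    rcases le_total 0 t with ht | ht
    · exact hkey t ht
    · have := hkey (-t) (by linarith)
      rw [neg_neg] at this
      linarith
  · have h1 : ∫ u in (0 : ℝ)..1, quant ν u * f u = ∫ u in (0 : ℝ)..1, g u * f u := by
      rw [intervalIntegral.integral_of_le zero_le_one, integral_Ioc_eq_integral_Ioo,
        intervalIntegral.integral_of_le zero_le_one, integral_Ioc_eq_integral_Ioo]
      apply setIntegral_congr_fun measurableSet_Ioo
      intro u hu
      simp only [hquant u hu]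
    have h2 : IntervalIntegrable (fun u => g u * f u) volume 0 1 := by
      apply ContinuousOn.intervalIntegrable
      rw [uIcc_of_le zero_le_one]
      exact hgc.mul hf
    rw [h1, hhalf _ h2]
    apply toInt
    intro u hu
    rw [hgs u ⟨(hsub hu).1.le, hu.2.le⟩]
    ring

end V11309.KRec
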