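import Pool.Agent.V11309.KRec.Integ
import Pool.Agent.V11309.KRec.Quant

/-! The sharp constants. -/

namespace V11309.KRec

open MeasureTheory ProbabilityTheory Set Filter Topology

lemma cs_aux {g P : ℝ → ℝ} {S : Set ℝ} (hg : MemLp g 2 (volume.restrict S))
    (hP : MemLp P 2 (volume.restrict S)) (hQ : 0 < ∫ x in S, P x ^ 2) :
    ∫ x in S, g x * P x ≤ √((∫ x in S, P x ^ 2) * ∫ x in S, g x ^ 2) := by
  set Q := ∫ x in S, P x ^ 2
  set G := ∫ x in S, g x ^ 2
  set I := ∫ x in S, g x * P x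
  apply Real.le_sqrt_of_sq_le
  have h1 : 0 ≤ ∫ x in S, (g x - (I / Q) * P x) ^ 2 := integral_nonneg fun x => sq_nonneg _
  have i1 : Integrable (fun x => g x ^ 2) (volume.restrict S) := hg.integrable_sq
  have i2 : Integrable (fun x => P x ^ 2) (volume.restrict S) := hP.integrable_sq
  have i3 : Integrable (fun x => g x * P x) (volume.restrict S) := hg.integrable_mul hP
  have h2 : ∫ x in S, (g x - (I / Q) * P x) ^ 2 = G - 2 * (I / Q) * I + (I / Q) ^ 2 * Q := by
    have e : ∀ x, (g x - (I / Q) * P x) ^ 2 =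
        (g x ^ 2 - 2 * (I / Q) * (g x * P x)) + (I / Q) ^ 2 * P x ^ 2 := fun x => by ring
    simp only [e]
    have i4 : Integrable (fun x => g x ^ 2 - 2 * (I / Q) * (g x * P x)) (volume.restrict S) :=
      i1.sub (i3.const_mul _)
    rw [integral_add i4 (i2.const_mul _),
      integral_sub i1 (i3.const_mul _), integral_const_mul, integral_const_mul]
  rw [h2] at h1
  have h3 : G - 2 * (I / Q) * I + (I / Q) ^ 2 * Q = G - I ^ 2 / Q := by
    field_simp
    ring
  rw [h3, sub_nonneg, div_le_iff₀ hQ] at h1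
  linarith

lemma clamp_half {α u : ℝ} (hα : 1 / 2 < α) (hu : 1 / 2 < u) :
    max (1 - α) (min u α) = min u α := by
  apply max_eq_right
  apply le_min <;> linarith

/-- value of the squared norm. -/
lemma normP {s : ℝ → ℝ} (hs : ContinuousOn s (Icc 0 1)) {α : ℝ} (h1 : 1 / 2 < α) (h2 : α < 1) :
    ∫ u in Ioo (1 / 2 : ℝ) 1, s (min u α) ^ 2 =
      (∫ x in (1 / 2)..α, s x ^ 2) + (1 - α) * s α ^ 2 := by
  have hc : ContinuousOn (fun u => s (min u α) ^ 2) (Icc 0 1) := by
    apply ContinuousOn.pow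
    apply hs.comp (by fun_prop)
    intro u hu
    exact ⟨le_min hu.1 (by linarith), (min_le_left _ _).trans hu.2⟩
  have hi : ∀ a b, a ∈ Icc (0 : ℝ) 1 → b ∈ Icc (0 : ℝ) 1 →
      IntervalIntegrable (fun u => s (min u α) ^ 2) volume a b := by
    intro a b ha hb
    apply ContinuousOn.intervalIntegrable
    exact hc.mono (ordConnected_Icc.uIcc_subset ha hb)
  rw [← integral_Ioc_eq_integral_Ioo, ← intervalIntegral.integral_of_le (by norm_num),
    ← intervalIntegral.integral_add_adjacent_intervals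
      (hi (1 / 2) α ⟨by norm_num, by norm_num⟩ ⟨by linarith, h2.le⟩)
      (hi α 1 ⟨by linarith, h2.le⟩ ⟨by norm_num, le_rfl⟩)]
  congr 1
  · apply intervalIntegral.integral_congr
    intro u hu
    rw [uIcc_of_le h1.le] at hu
    simp only
    rw [min_eq_left hu.2]
  · have : ∫ u in α..1, s (min u α) ^ 2 = ∫ u in α..1, s α ^ 2 := by
      apply intervalIntegral.integral_congr
      intro u hu
      rw [uIcc_of_le h2.le] at hu
      simp only
      rw [min_eq_right hu.1]
    rw [this, intervalIntegral.integral_const, smul_eq_mul]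

section

variable {s : ℝ → ℝ}

lemma int_h {α : ℝ} (hs : ContinuousOn s (Icc 0 1)) (hα : IsAlpha s α) :
    ∫ x in Ioo α 1, (s x - s α) = 0 := by
  obtain ⟨h1, h2, h3, h4⟩ := hα
  have hi : IntervalIntegrable s volume α 1 := by
    apply ContinuousOn.intervalIntegrable
    rw [uIcc_of_le h2.le]
    exact hs.mono (Icc_subset_Icc (by linarith) le_rfl)
  rw [← integral_Ioc_eq_integral_Ioo, ← intervalIntegral.integral_of_le h2.le,
    intervalIntegral.integral_sub hi intervalIntegrable_const, ← h4,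
    intervalIntegral.integral_const, smul_eq_mul, sub_self]

/-- decomposition of `∫ g s`. -/
lemma decomp {α : ℝ} {g : ℝ → ℝ} (hs : ContinuousOn s (Icc 0 1)) (hα : IsAlpha s α)
    (hg : MemLp g 2 (volume.restrict (Ioo (1 / 2) 1))) :
    ∫ u in Ioo (1 / 2 : ℝ) 1, g u * s u =
      (∫ u in Ioo (1 / 2 : ℝ) 1, g u * s (min u α)) + ∫ u in Ioo α 1, g u * (s u - s α) := by
  obtain ⟨h1, h2, h3, h4⟩ := hα
  have hcP : ContinuousOn (fun u => s (min u α)) (Icc 0 1) := by
    apply hs.comp (by fun_prop)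
    intro u hu
    exact ⟨le_min hu.1 (by linarith), (min_le_left _ _).trans hu.2⟩
  have hgi : Integrable g (volume.restrict (Ioo (1 / 2) 1)) := hg.integrable (by norm_num)
  have hbd : ∀ f : ℝ → ℝ, ContinuousOn f (Icc 0 1) →
      Integrable (fun u => g u * f u) (volume.restrict (Ioo (1 / 2) 1)) := by
    intro f hf
    obtain ⟨C, hC⟩ := isCompact_Icc.exists_bound_of_continuousOn hf
    have hsub : Ioo (1 / 2 : ℝ) 1 ⊆ Icc 0 1 := fun x hx => ⟨by linarith [hx.1], hx.2.le⟩
    apply hgi.mul_bdd (c := C) ((hf.mono hsub).aestronglyMeasurable measurableSet_Ioo)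
    have h3 : ∀ᵐ u ∂(volume.restrict (Ioo (1 / 2 : ℝ) 1)), u ∈ Ioo (1 / 2 : ℝ) 1 :=
      ae_restrict_mem measurableSet_Ioo
    filter_upwards [h3] with u hu
    exact hC u (hsub hu)
  have e1 : ∫ u in Ioo α 1, g u * (s u - s α) =
      ∫ u in Ioo (1 / 2 : ℝ) 1, (Ioo α 1).indicator (fun u => g u * (s u - s α)) u := by
    rw [setIntegral_indicator measurableSet_Ioo]
    congr 2
    ext x
    simp only [mem_inter_iff, mem_Ioo]
    constructor
    · rintro ⟨a, b⟩
      exact ⟨⟨by linarith, b⟩, a, b⟩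
    · rintro ⟨_, b⟩
      exact b
  have e2 : ∫ u in Ioo (1 / 2 : ℝ) 1, (Ioo α 1).indicator (fun u => g u * (s u - s α)) u =
      ∫ u in Ioo (1 / 2 : ℝ) 1, (g u * s u - g u * s (min u α)) := by
    apply setIntegral_congr_fun measurableSet_Ioo
    intro u hu
    simp only
    rcases le_or_gt u α with h | h
    · have hn : u ∉ Ioo α 1 := fun hh => by linarith [hh.1]
      rw [indicator_of_notMem hn, min_eq_left h, sub_self]
    · have hn : u ∈ Ioo α 1 := ⟨h, hu.2⟩
      rw [indicator_of_mem hn, min_eq_right h.le]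
      ring
  rw [e1, e2, integral_sub (hbd s hs) (hbd _ hcP)]
  ring

theorem upper {α : ℝ} {g : ℝ → ℝ} (hs : ContinuousOn s (Icc 0 1))
    (hshape : Neg s ∨ ∃ z, Hump s z) (hα : IsAlpha s α)
    (hg : MemLp g 2 (volume.restrict (Ioo (1 / 2) 1))) (hm : MonotoneOn g (Ioo (1 / 2) 1))
    (h0 : ∀ u ∈ Ioo (1 / 2 : ℝ) 1, 0 ≤ g u) :
    ∫ u in Ioo (1 / 2 : ℝ) 1, g u * s u ≤
      √((∫ u in Ioo (1 / 2 : ℝ) 1, s (min u α) ^ 2) * ∫ u in Ioo (1 / 2 : ℝ) 1, g u ^ 2) := by
  have hα' := hα
  obtain ⟨h1, h2, h3, h4⟩ := hα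
  have hcP : ContinuousOn (fun u => s (min u α)) (Icc 0 1) := by
    apply hs.comp (by fun_prop)
    intro u hu
    exact ⟨le_min hu.1 (by linarith), (min_le_left _ _).trans hu.2⟩
  have hsub : Ioo α 1 ⊆ Ioo (1 / 2) 1 := Ioo_subset_Ioo h1.le le_rfl
  have hsub' : Ioo (1 / 2 : ℝ) 1 ⊆ Icc 0 1 := fun x hx => ⟨by linarith [hx.1], hx.2.le⟩
  have hPLp : MemLp (fun u => s (min u α)) 2 (volume.restrict (Ioo (1 / 2) 1)) := by
    obtain ⟨C, hC⟩ := isCompact_Icc.exists_bound_of_continuousOn hcP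
    apply MemLp.of_bound ((hcP.mono hsub').aestronglyMeasurable measurableSet_Ioo) C
    have h3 : ∀ᵐ u ∂(volume.restrict (Ioo (1 / 2 : ℝ) 1)), u ∈ Ioo (1 / 2 : ℝ) 1 :=
      ae_restrict_mem measurableSet_Ioo
    filter_upwards [h3] with u hu
    exact hC u (hsub' hu)
  have hQ : 0 < ∫ u in Ioo (1 / 2 : ℝ) 1, s (min u α) ^ 2 := by
    rw [normP hs h1 h2]
    have h5 : 0 ≤ ∫ x in (1 / 2)..α, s x ^ 2 :=
      intervalIntegral.integral_nonneg h1.le fun x _ => sq_nonneg _
    have h6 : 0 < (1 - α) * s α ^ 2 := by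
      have : 0 < 1 - α := by linarith
      positivity
    linarith
  refine le_trans ?_ (cs_aux hg hPLp hQ)
  rw [decomp hs hα' hg]
  have h7 : ∫ u in Ioo α 1, g u * (s u - s α) ≤ 0 := by
    apply lemM (hm.mono hsub) (fun x hx => h0 x (hsub hx)) (pattern hshape h1.le h3.le)
    · have : ContinuousOn (fun x => s x - s α) (Icc α 1) :=
        (hs.mono (Icc_subset_Icc (by linarith) le_rfl)).sub continuousOn_const
      exact this.integrableOn_Icc.mono_set Ioo_subset_Icc_self
    · have hgi : Integrable g (volume.restrict (Ioo α 1)) :=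
        (hg.integrable (by norm_num)).mono_measure (Measure.restrict_mono hsub le_rfl)
      have hf : ContinuousOn (fun x => s x - s α) (Icc 0 1) := hs.sub continuousOn_const
      obtain ⟨C, hC⟩ := isCompact_Icc.exists_bound_of_continuousOn hf
      apply hgi.mul_bdd (c := C)
        ((hf.mono (hsub.trans hsub')).aestronglyMeasurable measurableSet_Ioo)
      have h3 : ∀ᵐ u ∂(volume.restrict (Ioo α 1)), u ∈ Ioo α 1 :=
        ae_restrict_mem measurableSet_Ioo
      filter_upwards [h3] with u hu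
      exact hC u (hsub' (hsub hu))
    · exact (int_h hs hα').le
  linarith

/-- `∫ P s = ∫ P²`. -/
lemma selfP {α : ℝ} (hs : ContinuousOn s (Icc 0 1)) (hα : IsAlpha s α) :
    ∫ u in Ioo (1 / 2 : ℝ) 1, s (min u α) * s u = ∫ u in Ioo (1 / 2 : ℝ) 1, s (min u α) ^ 2 := by
  have hα' := hα
  obtain ⟨h1, h2, h3, h4⟩ := hα
  have hcP : ContinuousOn (fun u => s (min u α)) (Icc 0 1) := by
    apply hs.comp (by fun_prop)
    intro u hu
    exact ⟨le_min hu.1 (by linarith), (min_le_left _ _).trans hu.2⟩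
  have hsub' : Ioo (1 / 2 : ℝ) 1 ⊆ Icc 0 1 := fun x hx => ⟨by linarith [hx.1], hx.2.le⟩
  have hPLp : MemLp (fun u => s (min u α)) 2 (volume.restrict (Ioo (1 / 2) 1)) := by
    obtain ⟨C, hC⟩ := isCompact_Icc.exists_bound_of_continuousOn hcP
    apply MemLp.of_bound ((hcP.mono hsub').aestronglyMeasurable measurableSet_Ioo) C
    have h3 : ∀ᵐ u ∂(volume.restrict (Ioo (1 / 2 : ℝ) 1)), u ∈ Ioo (1 / 2 : ℝ) 1 :=
      ae_restrict_mem measurableSet_Ioo
    filter_upwards [h3] with u hu
    exact hC u (hsub' hu)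
  rw [decomp hs hα' hPLp]
  have e1 : ∫ u in Ioo α 1, s (min u α) * (s u - s α) = s α * ∫ u in Ioo α 1, (s u - s α) := by
    rw [← integral_const_mul]
    apply setIntegral_congr_fun measurableSet_Ioo
    intro u hu
    simp only
    rw [min_eq_right hu.1.le]
  rw [e1, int_h hs hα', mul_zero, add_zero]
  apply setIntegral_congr_fun measurableSet_Ioo
  intro u _
  simp only
  ring

/-- the near-optimal quantile functions. -/
noncomputable def gg (s : ℝ → ℝ) (α ε u : ℝ) : ℝ := s (max (1 - α) (min u α)) + ε * (u - 1 / 2)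

lemma gg_cont {α ε : ℝ} (hs : ContinuousOn s (Icc 0 1)) (h1 : 1 / 2 < α) (h2 : α < 1) :
    ContinuousOn (gg s α ε) (Icc 0 1) := by
  apply ContinuousOn.add
  · apply hs.comp (by fun_prop)
    intro u hu
    refine ⟨le_max_of_le_left (by linarith), max_le (by linarith) ?_⟩
    exact (min_le_left _ _).trans hu.2
  · fun_prop

lemma gg_symm {α ε : ℝ} (hsym : ∀ x, s (1 - x) = - s x) (h1 : 1 / 2 < α) :
    ∀ u ∈ Icc (0 : ℝ) 1, gg s α ε (1 - u) = - gg s α ε u := by
  intro u _
  unfold gg
  have e : max (1 - α) (min (1 - u) α) = 1 - max (1 - α) (min u α) := by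
    rcases le_total u α with h | h
    · rcases le_total (1 - u) α with h' | h'
      · rw [min_eq_left h, min_eq_left h', max_eq_right (by linarith), max_eq_right (by linarith)]
      · rw [min_eq_left h, min_eq_right h', max_eq_right (by linarith), max_eq_left (by linarith)]
        ring
    · rw [min_eq_right h, min_eq_left (by linarith), max_eq_left (by linarith),
        max_eq_right (by linarith)]
  rw [e, hsym]
  ring

lemma s_mono {α : ℝ} (hsym : ∀ x, s (1 - x) = - s x) (h1 : 1 / 2 < α)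
    (hm : MonotoneOn s (Icc (1 / 2) α)) (h0 : s (1 / 2) = 0) : MonotoneOn s (Icc (1 - α) α) := by
  have hpos : ∀ x ∈ Icc (1 / 2) α, 0 ≤ s x := by
    intro x hx
    have := hm ⟨le_rfl, h1.le⟩ hx hx.1
    linarith
  intro x hx y hy hxy
  rcases le_total (1 / 2) x with hx2 | hx2
  · exact hm ⟨hx2, hx.2⟩ ⟨by linarith, hy.2⟩ hxy
  · have ex : s x = - s (1 - x) := by
      have := hsym x
      linarith
    rcases le_total (1 / 2) y with hy2 | hy2
    · have p1 := hpos (1 - x) ⟨by linarith, by linarith [hx.1]⟩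
      have p2 := hpos y ⟨hy2, hy.2⟩
      linarith
    · have ey : s y = - s (1 - y) := by
        have := hsym y
        linarith
      have := hm (a := 1 - y) (b := 1 - x) ⟨by linarith, by linarith [hy.1]⟩
        ⟨by linarith, by linarith [hx.1]⟩ (by linarith)
      linarith

lemma gg_mono {α ε : ℝ} (hε : 0 < ε) (hsym : ∀ x, s (1 - x) = - s x) (h1 : 1 / 2 < α)
    (hm : MonotoneOn s (Icc (1 / 2) α)) (h0 : s (1 / 2) = 0) :
    StrictMonoOn (gg s α ε) (Icc 0 1) := by
  intro u _ v _ huv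
  have hsm := s_mono hsym h1 hm h0
  have e1 : ∀ u, max (1 - α) (min u α) ∈ Icc (1 - α) α := fun u =>
    ⟨le_max_left _ _, max_le (by linarith) (min_le_right _ _)⟩
  have h2 : s (max (1 - α) (min u α)) ≤ s (max (1 - α) (min v α)) :=
    hsm (e1 u) (e1 v) (max_le_max le_rfl (min_le_min huv.le le_rfl))
  unfold gg
  have h3 := mul_lt_mul_of_pos_left huv hε
  linarith

lemma alpha_monoOn {α : ℝ} (hcont : ContinuousOn s (Icc (1 / 2) 1)) (h1' : s 1 = 0)
    (hs : Neg s ∨ ∃ z, Hump s z) (hα : IsAlpha s α) : MonotoneOn s (Icc (1 / 2) α) := by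
  obtain ⟨a1, a2, a3, a4⟩ := hα
  rcases hs with hs | ⟨z, hz1, hz2, hmono, hright⟩
  · have := hs α a1 a2
    linarith
  · rcases le_or_gt α z with h | h
    · exact (hmono.mono (Icc_subset_Icc le_rfl h)).monotoneOn
    · exfalso
      have h1 : ∫ x in α..1, s x < ∫ x in α..1, s α := by
        apply intervalIntegral.integral_lt_integral_of_continuousOn_of_le_of_exists_lt a2
        · exact hcont.mono (Icc_subset_Icc a1.le le_rfl)
        · exact continuousOn_const
        · intro x hx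
          rcases hx.2.eq_or_lt with h' | h'
          · rw [h', h1']
            exact a3.le
          · by_contra hcon
            push Not at hcon
            have := hright α x h.le hx.1 h' (by linarith)
            linarith
        · exact ⟨1, ⟨a2.le, le_rfl⟩, by rw [h1']; exact a3⟩
      rw [intervalIntegral.integral_const, smul_eq_mul] at h1
      linarith

end

lemma sfun_symm (k n : ℕ) (x : ℝ) : sfun k n (1 - x) = - sfun k n x := by
  unfold sfun
  rw [sub_sub_cancel]
  ring

lemma setint_cont {f : ℝ → ℝ} (hf : ContinuousOn f (Icc 0 1)) :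
    IntegrableOn f (Ioo (1 / 2) 1) := by
  have hsub' : Ioo (1 / 2 : ℝ) 1 ⊆ Icc 0 1 := fun x hx => ⟨by linarith [hx.1], hx.2.le⟩
  exact hf.integrableOn_Icc.mono_set hsub'

/-- The least upper bound in the main case. -/
theorem lub_pos (N M : ℕ) {α : ℝ} (hα : IsAlpha (sfun (M + 2) (N + 1)) α) :
    IsLUB (ratios (M + 2) (N + 1))
      (√(((∫ x in (1 / 2)..α, sfun (M + 2) (N + 1) x ^ 2) +
        (1 - α) * sfun (M + 2) (N + 1) α ^ 2) / 2)) := by
  set s := sfun (M + 2) (N + 1) with hsdef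
  have hs : ContinuousOn s (Icc 0 1) := continuousOn_sfun N M
  have hs2 : ContinuousOn s (Icc (1 / 2) 1) := hs.mono (Icc_subset_Icc (by norm_num) le_rfl)
  have hshape := shape N M
  rw [← hsdef] at hshape
  have h1 := hα.1
  have h2 := hα.2.1
  rw [← normP hs h1 h2]
  set Q := ∫ u in Ioo (1 / 2 : ℝ) 1, s (min u α) ^ 2 with hQdef
  have hQ : 0 < Q := by
    rw [hQdef, normP hs h1 h2]
    have h5 : 0 ≤ ∫ x in (1 / 2)..α, s x ^ 2 :=
      intervalIntegral.integral_nonneg h1.le fun x _ => sq_nonneg _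
    have h6 : 0 < (1 - α) * s α ^ 2 := by
      have h7 : 0 < 1 - α := by linarith
      have h8 := hα.2.2.1
      positivity
    linarith
  constructor
  · rintro r ⟨ν, hν, rfl⟩
    obtain ⟨g, g1, g2, g3, g4, g5⟩ := reduce hν (continuousOn_dens N M) (integral_dens_one N M)
    have hvp := hν.var_pos
    have hrec : recMean (M + 2) (N + 1) ν - mean ν = ∫ u in Ioo (1 / 2 : ℝ) 1, g u * s u := g5
    rw [hrec, div_le_iff₀ (Real.sqrt_pos.mpr hvp), ← Real.sqrt_mul (by positivity), g4]
    refine (upper hs hshape hα g3 g1 g2).trans (le_of_eq ?_)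
    congr 1
    rw [← hQdef]
    ring
  · intro b hb
    have hcP : ContinuousOn (fun u => s (min u α)) (Icc 0 1) := by
      apply hs.comp (by fun_prop)
      intro u hu
      exact ⟨le_min hu.1 (by linarith), (min_le_left _ _).trans hu.2⟩
    set c0 := ∫ u in Ioo (1 / 2 : ℝ) 1, (u - 1 / 2) * s u with hc0
    set c1 := ∫ u in Ioo (1 / 2 : ℝ) 1, s (min u α) * (u - 1 / 2) with hc1
    set c2 := ∫ u in Ioo (1 / 2 : ℝ) 1, (u - 1 / 2) ^ 2 with hc2
    have hgg : ∀ ε : ℝ, ∀ u ∈ Ioo (1 / 2 : ℝ) 1, gg s α ε u = s (min u α) + ε * (u - 1 / 2) := by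
      intro ε u hu
      unfold gg
      rw [clamp_half h1 hu.1]
    have e1 : ∀ ε : ℝ, ∫ u in Ioo (1 / 2 : ℝ) 1, gg s α ε u * s u = Q + ε * c0 := by
      intro ε
      have e2 : ∫ u in Ioo (1 / 2 : ℝ) 1, gg s α ε u * s u =
          ∫ u in Ioo (1 / 2 : ℝ) 1, (s (min u α) * s u + ε * ((u - 1 / 2) * s u)) := by
        apply setIntegral_congr_fun measurableSet_Ioo
        intro u hu
        simp only
        rw [hgg ε u hu]
        ring
      have i1 : IntegrableOn (fun u => s (min u α) * s u) (Ioo (1 / 2) 1) :=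
        setint_cont (hcP.mul hs)
      have i2 : IntegrableOn (fun u => ε * ((u - 1 / 2) * s u)) (Ioo (1 / 2) 1) :=
        setint_cont (continuousOn_const.mul ((by fun_prop : ContinuousOn (fun u : ℝ => u - 1 / 2)
          (Icc 0 1)).mul hs))
      rw [e2, integral_add i1 i2, integral_const_mul, selfP hs hα]
    have e3 : ∀ ε : ℝ, ∫ u in Ioo (1 / 2 : ℝ) 1, gg s α ε u ^ 2 =
        Q + 2 * ε * c1 + ε ^ 2 * c2 := by
      intro ε
      have e2 : ∫ u in Ioo (1 / 2 : ℝ) 1, gg s α ε u ^ 2 =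
          ∫ u in Ioo (1 / 2 : ℝ) 1, (s (min u α) ^ 2 + 2 * ε * (s (min u α) * (u - 1 / 2)) +
            ε ^ 2 * (u - 1 / 2) ^ 2) := by
        apply setIntegral_congr_fun measurableSet_Ioo
        intro u hu
        simp only
        rw [hgg ε u hu]
        ring
      have i1 : IntegrableOn (fun u => s (min u α) ^ 2) (Ioo (1 / 2) 1) :=
        setint_cont (hcP.pow 2)
      have i2 : IntegrableOn (fun u => 2 * ε * (s (min u α) * (u - 1 / 2))) (Ioo (1 / 2) 1) :=
        setint_cont (continuousOn_const.mul (hcP.mul (by fun_prop)))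
      have i3 : IntegrableOn (fun u : ℝ => ε ^ 2 * (u - 1 / 2) ^ 2) (Ioo (1 / 2) 1) :=
        setint_cont (by fun_prop)
      have i4 : IntegrableOn (fun u => s (min u α) ^ 2 + 2 * ε * (s (min u α) * (u - 1 / 2)))
        (Ioo (1 / 2) 1) := i1.add i2
      rw [e2, integral_add i4 i3, integral_add i1 i2, integral_const_mul, integral_const_mul]
    have hc1' : 0 ≤ c1 := by
      apply setIntegral_nonneg measurableSet_Ioo
      intro u hu
      apply mul_nonneg _ (by linarith [hu.1])
      have hm := alpha_monoOn hs2 (sfun_one N M) hshape hα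
      have := hm (a := 1 / 2) (b := min u α) ⟨le_rfl, h1.le⟩ ⟨le_min hu.1.le h1.le, min_le_right _ _⟩
        (le_min hu.1.le h1.le)
      rw [hsdef, sfun_half] at this
      exact this
    have hc2' : 0 ≤ c2 := setIntegral_nonneg measurableSet_Ioo fun u _ => sq_nonneg _
    have hb' : ∀ ε : ℝ, 0 < ε → (Q + ε * c0) / √(2 * (Q + 2 * ε * c1 + ε ^ 2 * c2)) ≤ b := by
      intro ε hε
      have hpos : 0 < ∫ u in Ioo (1 / 2 : ℝ) 1, gg s α ε u ^ 2 := by
        rw [e3]
        positivity
      obtain ⟨ν, n1, n2, n3, n4⟩ := realize (gg_cont (ε := ε) hs h1 h2)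
        (gg_mono hε (sfun_symm _ _) h1 (alpha_monoOn hs2 (sfun_one N M) hshape hα)
          (sfun_half N M)) (gg_symm (sfun_symm _ _) h1) (continuousOn_dens N M) hpos
      apply hb
      refine ⟨ν, n1, ?_⟩
      have hrec : recMean (M + 2) (N + 1) ν = ∫ u in Ioo (1 / 2 : ℝ) 1, gg s α ε u * s u := n4
      rw [hrec, n2, n3, e1, e3, sub_zero]
    have hlim : Tendsto (fun ε : ℝ => (Q + ε * c0) / √(2 * (Q + 2 * ε * c1 + ε ^ 2 * c2)))
        (𝓝[>] 0) (𝓝 ((Q + 0 * c0) / √(2 * (Q + 2 * 0 * c1 + 0 ^ 2 * c2)))) := by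
      apply Tendsto.mono_left _ nhdsWithin_le_nhds
      apply ContinuousAt.tendsto
      apply ContinuousAt.div (by fun_prop) (by fun_prop)
      have : 0 < √(2 * (Q + 2 * 0 * c1 + 0 ^ 2 * c2)) := by
        apply Real.sqrt_pos.mpr
        simp only [mul_zero, zero_mul, add_zero, ne_eq, OfNat.ofNat_ne_zero, not_false_eq_true,
          zero_pow]
        positivity
      exact this.ne'
    have hval : (Q + 0 * c0) / √(2 * (Q + 2 * 0 * c1 + 0 ^ 2 * c2)) = √(Q / 2) := by
      have e5 : 2 * (Q + 2 * 0 * c1 + 0 ^ 2 * c2) = 2 * Q := by ring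
      rw [e5, zero_mul, add_zero, div_eq_iff (Real.sqrt_pos.mpr (by positivity)).ne',
        ← Real.sqrt_mul (by positivity)]
      have e6 : Q / 2 * (2 * Q) = Q ^ 2 := by ring
      rw [e6, Real.sqrt_sq hQ.le]
    rw [hval] at hlim
    apply le_of_tendsto hlim
    filter_upwards [self_mem_nhdsWithin] with ε hε
    exact hb' ε hε

/-- The least upper bound in the degenerate case. -/
theorem lub_zero (N M : ℕ) (hint : ∫ x in (1 / 2)..1, sfun (M + 2) (N + 1) x ≤ 0) :
    IsLUB (ratios (M + 2) (N + 1)) 0 := by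
  set s := sfun (M + 2) (N + 1) with hsdef
  have hs : ContinuousOn s (Icc 0 1) := continuousOn_sfun N M
  have hshape := shape N M
  rw [← hsdef] at hshape
  have hsub' : Ioo (1 / 2 : ℝ) 1 ⊆ Icc 0 1 := fun x hx => ⟨by linarith [hx.1], hx.2.le⟩
  obtain ⟨C, hC⟩ := isCompact_Icc.exists_bound_of_continuousOn hs
  constructor
  · rintro r ⟨ν, hν, rfl⟩
    obtain ⟨g, g1, g2, g3, g4, g5⟩ := reduce hν (continuousOn_dens N M) (integral_dens_one N M)
    have hrec : recMean (M + 2) (N + 1) ν - mean ν = ∫ u in Ioo (1 / 2 : ℝ) 1, g u * s u := g5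
    rw [hrec]
    apply div_nonpos_of_nonpos_of_nonneg _ (Real.sqrt_nonneg _)
    have hs0 : s (1 / 2) = 0 := sfun_half N M
    apply lemM g1 g2
    · intro x hx y hy hxy h
      have := pattern hshape le_rfl (by rw [hs0]) x hx y hy hxy
      rw [hs0, sub_zero, sub_zero] at this
      exact this h
    · exact setint_cont hs
    · apply (g3.integrable (by norm_num)).mul_bdd (c := C)
        ((hs.mono hsub').aestronglyMeasurable measurableSet_Ioo)
      have h3 : ∀ᵐ u ∂(volume.restrict (Ioo (1 / 2 : ℝ) 1)), u ∈ Ioo (1 / 2 : ℝ) 1 :=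
        ae_restrict_mem measurableSet_Ioo
      filter_upwards [h3] with u hu
      exact hC u (hsub' hu)
    · rwa [← integral_Ioc_eq_integral_Ioo, ← intervalIntegral.integral_of_le (by norm_num)]
  · intro b hb
    have hpow : ∀ j : ℕ, ∫ u in Ioo (1 / 2 : ℝ) 1, (2 * u - 1) ^ j = 1 / (2 * ((j : ℝ) + 1)) := by
      intro j
      rw [← integral_Ioc_eq_integral_Ioo, ← intervalIntegral.integral_of_le (by norm_num)]
      have := intervalIntegral.integral_comp_mul_sub (a := 1 / 2) (b := 1)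
        (fun x : ℝ => x ^ j) (c := 2) (by norm_num) 1
      rw [this]
      norm_num
      field_simp
    have hkey : ∀ j : ℕ, -(C / √((j : ℝ) + 1)) ≤ b := by
      intro j
      set g : ℝ → ℝ := fun u => (2 * u - 1) ^ (2 * j + 1) with hg
      have hgc : ContinuousOn g (Icc 0 1) := by
        rw [hg]
        fun_prop
      have hodd : Odd (2 * j + 1) := ⟨j, rfl⟩
      have hgm : StrictMonoOn g (Icc 0 1) := by
        intro u _ v _ huv
        exact hodd.strictMono_pow (by linarith)
      have hgs : ∀ u ∈ Icc (0 : ℝ) 1, g (1 - u) = - g u := by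
        intro u _
        simp only [hg]
        rw [← hodd.neg_pow]
        congr 1
        ring
      have hsq : ∫ u in Ioo (1 / 2 : ℝ) 1, g u ^ 2 = 1 / (2 * ((4 * (j : ℝ) + 2) + 1)) := by
        have := hpow (4 * j + 2)
        push_cast at this
        rw [← this]
        apply setIntegral_congr_fun measurableSet_Ioo
        intro u _
        simp only [hg]
        rw [← pow_mul]
        congr 1
        ring
      obtain ⟨ν, n1, n2, n3, n4⟩ := realize hgc hgm hgs (continuousOn_dens N M)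
        (by rw [hsq]; positivity)
      have hmem := hb ⟨ν, n1, rfl⟩
      refine le_trans ?_ hmem
      have hrec : recMean (M + 2) (N + 1) ν = ∫ u in Ioo (1 / 2 : ℝ) 1, g u * s u := n4
      rw [hrec, n2, n3, hsq, sub_zero]
      have hlow : -(C * (1 / (2 * ((2 * (j : ℝ) + 1) + 1)))) ≤
          ∫ u in Ioo (1 / 2 : ℝ) 1, g u * s u := by
        have h5 := hpow (2 * j + 1)
        push_cast at h5
        rw [← h5, ← integral_const_mul, ← integral_neg]
        apply setIntegral_mono_on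
        · exact setint_cont (by fun_prop)
        · exact setint_cont (hgc.mul hs)
        · exact measurableSet_Ioo
        · intro u hu
          have h6 : 0 ≤ (2 * u - 1) ^ (2 * j + 1) := pow_nonneg (by linarith [hu.1]) _
          have h7 := hC u (hsub' hu)
          rw [Real.norm_eq_abs, abs_le] at h7
          simp only [hg]
          nlinarith [h7.1]
      have hC0 : 0 ≤ C := (norm_nonneg _).trans (hC 0 ⟨le_rfl, zero_le_one⟩)
      rw [le_div_iff₀ (Real.sqrt_pos.mpr (by positivity))]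
      refine le_trans ?_ hlow
      rw [neg_mul, neg_le_neg_iff, div_mul_eq_mul_div, mul_div_assoc]
      apply mul_le_mul_of_nonneg_left _ hC0
      rw [← Real.sqrt_div (by positivity)]
      apply Real.le_sqrt_of_sq_le
      have e1 : (1 / (2 * ((2 * (j : ℝ) + 1) + 1))) ^ 2 = 1 / (16 * ((j : ℝ) + 1) ^ 2) := by
        field_simp
        ring
      have e2 : 2 * (1 / (2 * ((4 * (j : ℝ) + 2) + 1))) / (j + 1) =
          1 / ((4 * (j : ℝ) + 3) * (j + 1)) := by
        field_simp
        ring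
      rw [e2, e1]
      apply one_div_le_one_div_of_le (by positivity)
      have hj : (0 : ℝ) ≤ j := Nat.cast_nonneg j
      nlinarith
    have hlim : Tendsto (fun j : ℕ => -(C / √((j : ℝ) + 1))) atTop (𝓝 (-0)) := by
      apply Tendsto.neg
      apply Tendsto.const_div_atTop
      apply Real.tendsto_sqrt_atTop.comp
      exact tendsto_atTop_add_const_right _ _ tendsto_natCast_atTop_atTop
    rw [neg_zero] at hlim
    exact le_of_tendsto' hlim hkey

end V11309.KRec
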