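import Pool.Agent.V11309.KRec.Sfun

/-! Integrals of the density. -/

namespace V11309.KRec

open MeasureTheory Set Filter Topology

/-- `H v = v^k ∑_{j ≤ n} (k (-log v))^j / j!`. -/
noncomputable def HH (k n : ℕ) (v : ℝ) : ℝ :=
  ∑ j ∈ Finset.range (n + 1), v ^ k * ((k : ℝ) * (-Real.log v)) ^ j / (j.factorial : ℝ)

lemma hasDerivAt_HH (k n : ℕ) (hk : 1 ≤ k) {v : ℝ} (hv : 0 < v) :
    HasDerivAt (HH k n) ((k : ℝ) ^ (n + 1) / (n.factorial : ℝ) * (-Real.log v) ^ n * v ^ (k - 1)) v := by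
  obtain ⟨K, rfl⟩ : ∃ K, k = K + 1 := ⟨k - 1, by omega⟩
  induction n with
  | zero =>
    have h1 : HasDerivAt (fun v : ℝ => v ^ (K + 1)) (((K + 1 : ℕ) : ℝ) * v ^ K) v := by
      simpa using hasDerivAt_pow (K + 1) v
    have h2 : HH (K + 1) 0 = fun v : ℝ => v ^ (K + 1) := by
      ext v
      simp [HH]
    rw [h2]
    refine h1.congr_deriv ?_
    simp
  | succ n ih =>
    have e : HH (K + 1) (n + 1) = fun v => HH (K + 1) n v +
        v ^ (K + 1) * (((K + 1 : ℕ) : ℝ) * (-Real.log v)) ^ (n + 1) / ((n + 1).factorial : ℝ) := by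
      ext v
      unfold HH
      rw [Finset.sum_range_succ _ (n + 1)]
    rw [e]
    have h1 : HasDerivAt (fun v : ℝ => v ^ (K + 1)) (((K + 1 : ℕ) : ℝ) * v ^ K) v := by
      simpa using hasDerivAt_pow (K + 1) v
    have h2 := ((hasDerivAt_a hv).const_mul ((K + 1 : ℕ) : ℝ)).pow (n + 1)
    have h3 := ih.add ((h1.mul h2).div_const ((n + 1).factorial : ℝ))
    refine HasDerivAt.congr_deriv h3 ?_
    simp only [Pi.pow_apply, Nat.add_sub_cancel, Nat.factorial_succ]
    push_cast
    have hn : (n.factorial : ℝ) ≠ 0 := by positivity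
    have hn1 : (n : ℝ) + 1 ≠ 0 := by positivity
    have hv' := hv.ne'
    generalize (-Real.log v) = L
    rw [mul_pow, mul_pow, pow_succ v K]
    field_simp
    ring

lemma continuousOn_HH (k n : ℕ) (hk : 1 ≤ k) : ContinuousOn (HH k n) (Ici 0) := by
  obtain ⟨K, rfl⟩ : ∃ K, k = K + 1 := ⟨k - 1, by omega⟩
  unfold HH
  apply continuousOn_finsetSum
  intro j _
  apply ContinuousOn.div_const
  rcases j with _ | j
  · simp only [pow_zero, mul_one]
    exact (continuous_pow _).continuousOn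
  · have h := (continuousOn_SA j K).mul (continuousOn_const (c := (((K + 1 : ℕ) : ℝ)) ^ (j + 1)))
    refine h.congr fun v _ => ?_
    simp only [SA, Pi.mul_apply]
    rw [mul_pow]
    ring

lemma HH_zero (k n : ℕ) (hk : 1 ≤ k) : HH k n 0 = 0 := by
  unfold HH
  apply Finset.sum_eq_zero
  intro j _
  rw [zero_pow (by omega), zero_mul, zero_div]

lemma HH_one (k n : ℕ) : HH k n 1 = 1 := by
  unfold HH
  rw [Finset.sum_eq_single 0]
  · simp
  · intro j _ hj
    simp [zero_pow hj]
  · intro h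
    exact absurd (Finset.mem_range.mpr (Nat.succ_pos n)) h

lemma HH_half (k n : ℕ) :
    HH k n (1 / 2) = (∑ j ∈ Finset.range (n + 1), ((k : ℝ) * Real.log 2) ^ j / (j.factorial : ℝ)) /
      2 ^ k := by
  unfold HH
  rw [Finset.sum_div]
  apply Finset.sum_congr rfl
  intro j _
  rw [show -Real.log (1 / 2 : ℝ) = Real.log 2 by rw [one_div, Real.log_inv, neg_neg], one_div,
    inv_pow]
  field_simp

lemma integral_dens (N M : ℕ) {a b : ℝ} (ha : 0 ≤ a) (hab : a ≤ b) (hb : b ≤ 1) :
    ∫ x in a..b, dens (M + 2) (N + 1) x = HH (M + 2) (N + 1) (1 - a) - HH (M + 2) (N + 1) (1 - b) := by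
  have h := intervalIntegral.integral_eq_sub_of_hasDerivAt_of_le hab
    (f := fun x => - HH (M + 2) (N + 1) (1 - x)) (f' := dens (M + 2) (N + 1)) ?_ ?_ ?_
  · rw [h]
    ring
  · apply ContinuousOn.neg
    refine (continuousOn_HH (M + 2) (N + 1) (by omega)).comp (by fun_prop) ?_
    intro x hx
    exact mem_Ici.mpr (by linarith [hx.2])
  · intro x hx
    have h2 : HasDerivAt (fun u : ℝ => 1 - u) (-1) x := by
      simpa using (hasDerivAt_id x).const_sub 1
    have h3 := (HasDerivAt.comp (h₂ := HH (M + 2) (N + 1)) (h := fun u : ℝ => 1 - u) x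
      (hasDerivAt_HH (M + 2) (N + 1) (by omega) (by linarith [hx.2])) h2).neg
    refine HasDerivAt.congr_deriv h3 ?_
    unfold dens
    ring
  · apply ContinuousOn.intervalIntegrable
    rw [uIcc_of_le hab]
    exact (continuousOn_dens N M).mono (Icc_subset_Icc ha hb)

lemma integral_dens_one (N M : ℕ) : ∫ x in (0 : ℝ)..1, dens (M + 2) (N + 1) x = 1 := by
  rw [integral_dens N M le_rfl zero_le_one le_rfl, sub_zero, sub_self, HH_one,
    HH_zero _ _ (by omega), sub_zero]

lemma integral_sfun (N M : ℕ) :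
    ∫ x in (1 / 2 : ℝ)..1, sfun (M + 2) (N + 1) x =
      (∑ j ∈ Finset.range (N + 2), (((M + 2 : ℕ) : ℝ) * Real.log 2) ^ j / (j.factorial : ℝ)) /
        2 ^ (M + 1) - 1 := by
  unfold sfun
  rw [intervalIntegral.integral_sub]
  · rw [intervalIntegral.integral_comp_sub_left (fun x => dens (M + 2) (N + 1) x),
      integral_dens N M (by norm_num) (by norm_num) le_rfl,
      integral_dens N M (by norm_num) (by norm_num) (by norm_num)]
    rw [show (1 : ℝ) - (1 - 1 / 2) = 1 / 2 by norm_num, show (1 : ℝ) - (1 - 1) = 1 by norm_num,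
      show (1 : ℝ) - 1 / 2 = 1 / 2 by norm_num, sub_self, HH_zero _ _ (by omega),
      HH_one, HH_half]
    rw [pow_succ (2 : ℝ) (M + 1)]
    ring
  · apply ContinuousOn.intervalIntegrable
    rw [uIcc_of_le (by norm_num)]
    exact (continuousOn_dens N M).mono (Icc_subset_Icc (by norm_num) le_rfl)
  · apply ContinuousOn.intervalIntegrable
    rw [uIcc_of_le (by norm_num)]
    refine (continuousOn_dens N M).comp (by fun_prop) ?_
    intro x hx
    exact ⟨by linarith [hx.2], by linarith [hx.1]⟩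

end V11309.KRec
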