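import Mathlib

/-! Elementary inequalities for `a = -log p`, `b = -log q`, `p + q = 1`. -/

namespace V11309.KRec

open Real Set

lemma N_pos {x : ℝ} (hx : 0 < x) : 0 < (x - 2) * exp x + x + 2 := by
  have hd : ∀ y : ℝ, HasDerivAt (fun y : ℝ => (y - 2) * exp y + y + 2) ((y - 1) * exp y + 1) y := by
    intro y
    have h1 := (((hasDerivAt_id y).sub_const 2).mul (Real.hasDerivAt_exp y)).add (hasDerivAt_id y)
    have h2 := h1.add_const 2
    refine HasDerivAt.congr_deriv h2 ?_
    simp only [id]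
    ring
  have hm : StrictMonoOn (fun y : ℝ => (y - 2) * exp y + y + 2) (Ici 0) := by
    apply strictMonoOn_of_deriv_pos (convex_Ici 0)
    · exact fun y _ => (hd y).continuousAt.continuousWithinAt
    · intro y hy
      rw [interior_Ici] at hy
      rw [(hd y).deriv]
      have h1 : -y + 1 < exp (-y) := Real.add_one_lt_exp (by have : 0 < y := hy; linarith)
      have h2 : (-y + 1) * exp y < exp (-y) * exp y :=
        mul_lt_mul_of_pos_right h1 (exp_pos y)
      rw [← exp_add, neg_add_cancel, exp_zero] at h2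
      nlinarith
  have := hm (mem_Ici.mpr le_rfl) (mem_Ici.mpr hx.le) hx
  simp only [zero_sub, exp_zero, mul_one, add_zero] at this
  linarith

/-- the function `K x = (e^x - 1 - x) / x^2`. -/
noncomputable def K (x : ℝ) : ℝ := (exp x - 1 - x) / x ^ 2

lemma K_strictMonoOn : StrictMonoOn K (Ioi 0) := by
  have hd : ∀ y : ℝ, 0 < y → HasDerivAt K (((y - 2) * exp y + y + 2) / y ^ 3) y := by
    intro y hy
    have h1 := ((((Real.hasDerivAt_exp y).sub_const 1).sub (hasDerivAt_id y)).div
      (hasDerivAt_pow 2 y) (by positivity))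
    refine HasDerivAt.congr_deriv h1 ?_
    simp only [id, Pi.sub_apply]
    field_simp
    push_cast
    ring
  apply strictMonoOn_of_deriv_pos (convex_Ioi 0)
  · exact fun y hy => (hd y hy).continuousAt.continuousWithinAt
  · intro y hy
    rw [interior_Ioi] at hy
    rw [(hd y hy).deriv]
    have hy' : 0 < y := hy
    have := N_pos hy'
    positivity

/-- `φ u = (1-u)/a + u/b`. -/
noncomputable def phi (u : ℝ) : ℝ := (1 - u) / (-log u) + u / (-log (1 - u))

lemma a_pos {u : ℝ} (h0 : 0 < u) (h1 : u < 1) : 0 < -log u := by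
  have := Real.log_neg h0 h1
  linarith

lemma b_pos {u : ℝ} (h0 : 0 < u) (h1 : u < 1) : 0 < -log (1 - u) :=
  a_pos (by linarith) (by linarith)

lemma b_lt_a {u : ℝ} (h0 : 0 < u) (h1 : u < 1 / 2) : -log (1 - u) < -log u := by
  have := Real.log_lt_log h0 (by linarith : u < 1 - u)
  linarith

lemma log2_lt_a {u : ℝ} (h0 : 0 < u) (h1 : u < 1 / 2) : log 2 < -log u := by
  have h := Real.log_lt_log h0 h1
  rw [one_div, Real.log_inv] at h
  linarith

lemma b_lt_log2 {u : ℝ} (h0 : 0 < u) (h1 : u < 1 / 2) : -log (1 - u) < log 2 := by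
  have h := Real.log_lt_log (by norm_num : (0 : ℝ) < 1 / 2) (by linarith : 1 / 2 < 1 - u)
  rw [one_div, Real.log_inv] at h
  linarith

lemma hasDerivAt_a {u : ℝ} (h0 : 0 < u) : HasDerivAt (fun u : ℝ => -log u) (-u⁻¹) u :=
  (Real.hasDerivAt_log h0.ne').neg

lemma hasDerivAt_b {u : ℝ} (h1 : u < 1) :
    HasDerivAt (fun u : ℝ => -log (1 - u)) ((1 - u)⁻¹) u := by
  have h2 : HasDerivAt (fun u : ℝ => 1 - u) (-1) u := by
    simpa using (hasDerivAt_id u).const_sub 1
  have h3 := (h2.log (by linarith)).neg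
  refine HasDerivAt.congr_deriv h3 ?_
  rw [neg_div, neg_neg, one_div]

lemma phi_strictMonoOn : StrictMonoOn phi (Ioc 0 (1 / 2)) := by
  have hd : ∀ u : ℝ, 0 < u → u < 1 → HasDerivAt phi (K (-log u) - K (-log (1 - u))) u := by
    intro u h0 h1
    have ha := a_pos h0 h1
    have hb := b_pos h0 h1
    have e1 : exp (-log u) = u⁻¹ := by rw [exp_neg, exp_log h0]
    have e2 : exp (-log (1 - u)) = (1 - u)⁻¹ := by rw [exp_neg, exp_log (by linarith)]
    have h2 : HasDerivAt (fun u : ℝ => 1 - u) (-1) u := by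
      simpa using (hasDerivAt_id u).const_sub 1
    have h3 := (h2.div (hasDerivAt_a h0) ha.ne').add
      ((hasDerivAt_id u).div (hasDerivAt_b h1) hb.ne')
    refine HasDerivAt.congr_deriv h3 ?_
    unfold K
    rw [e1, e2]
    simp only [id]
    have h1' : 1 - u ≠ 0 := by linarith
    have h0' : u ≠ 0 := h0.ne'
    have ha' := ha.ne'
    have hb' := hb.ne'
    generalize (-log u) = a at *
    generalize (-log (1 - u)) = b at *
    field_simp
    ring
  apply strictMonoOn_of_deriv_pos (convex_Ioc 0 (1 / 2))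
  · exact fun u hu => (hd u hu.1 (by linarith [hu.2])).continuousAt.continuousWithinAt
  · intro u hu
    rw [interior_Ioc] at hu
    rw [(hd u hu.1 (by linarith [hu.2])).deriv]
    have h1 : u < 1 := by linarith [hu.2]
    have := K_strictMonoOn (b_pos hu.1 h1) (a_pos hu.1 h1) (b_lt_a hu.1 hu.2)
    linarith

lemma phi_half : phi (1 / 2) = 1 / log 2 := by
  unfold phi
  rw [show (1 : ℝ) - 1 / 2 = 1 / 2 by norm_num, one_div, Real.log_inv, neg_neg, ← add_div]
  norm_num

lemma quad_aux {x z c1 c2 : ℝ} (hx : 0 < x) (hc2 : 0 < c2) (hxz : x ≤ z)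
    (h : z ^ 2 < c1 * z + c2) : x ^ 2 < c1 * x + c2 := by
  have hz : 0 < z := by linarith
  by_contra hcon
  push Not at hcon
  have h11 : z * (c1 * x + c2) ≤ z * x ^ 2 := mul_le_mul_of_nonneg_left hcon hz.le
  have h12 : x * z ^ 2 < x * (c1 * z + c2) := mul_lt_mul_of_pos_left h hx
  have h13 : x * c2 ≤ z * c2 := mul_le_mul_of_nonneg_right hxz hc2.le
  have h15 : 0 ≤ z * x * (z - x) := mul_nonneg (by positivity) (by linarith)
  nlinarith

/-- the key inequality `(E')`. -/
lemma keyE {p : ℝ} (h0 : 0 < p) (h1 : p < 1 / 2) :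
    (p * (-log p)) ^ 2 - ((1 - p) * (-log (1 - p))) ^ 2 <
      p * (1 - p) * ((-log p) * (-log (1 - p))) * (-log p - -log (1 - p)) := by
  have hq : 0 < 1 - p := by linarith
  have ha := a_pos h0 (by linarith : p < 1)
  have hb := b_pos h0 (by linarith : p < 1)
  have hba := b_lt_a h0 h1
  -- `d = log (q/p)`
  have hd : -log p - -log (1 - p) = log ((1 - p) / p) := by
    rw [Real.log_div hq.ne' h0.ne']
    ring
  set a := -log p with ha'
  set b := -log (1 - p) with hb'
  set d := a - b with hd'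
  have hdpos : 0 < d := by linarith
  have hE : exp d = (1 - p) / p := by
    rw [hd, exp_log (by positivity)]
  have hE2 : 1 + d + d ^ 2 / 2 ≤ (1 - p) / p := by
    rw [← hE]
    exact Real.quadratic_le_exp_of_nonneg hdpos.le
  -- lower bound for `b`
  have hb0 : 2 * p / (2 - p) ≤ b := by
    have h2 : b = log (1 + p / (1 - p)) := by
      rw [hb', ← Real.log_inv]
      congr 1
      field_simp
      ring
    rw [h2]
    have h3 : 2 * (p / (1 - p)) / (p / (1 - p) + 2) ≤ log (1 + p / (1 - p)) :=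
      Real.le_log_one_add_of_nonneg (by positivity)
    refine le_trans (le_of_eq ?_) h3
    have h2p : 2 - p ≠ 0 := by linarith
    have e1 : p / (1 - p) + 2 = (2 - p) / (1 - p) := by field_simp; ring
    rw [e1, mul_div_assoc', div_div_div_cancel_right₀ hq.ne']
  -- with `E = q / p`
  have hE3 : p * (1 + d + d ^ 2 / 2) ≤ 1 - p := by
    rw [le_div_iff₀ h0] at hE2
    linarith
  -- `w = a / b ≤ w0 = 1 + d (2 - p) / (2 p)`, i.e. `2 p a ≤ b (2 p + d (2 - p))`
  have hw : 2 * p * a ≤ b * (2 * p + d * (2 - p)) := by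
    have h2p : 0 < 2 - p := by linarith
    rw [div_le_iff₀ h2p] at hb0
    have : a = b + d := by rw [hd']; ring
    rw [this]
    nlinarith
  -- `y = p w0`
  set y := p + d * (2 - p) / 2 with hy
  have hy2 : p * a ≤ b * y := by rw [hy]; nlinarith
  have hyy : y ^ 2 < (1 - p) * d * y + (1 - p) ^ 2 := by
    have h4 : y - (1 - p) * d = p * (1 + d / 2) := by rw [hy]; ring
    have h5 : y = p * (1 + d / 2) + d * (1 - p) := by rw [hy]; ring
    have h50 : y ^ 2 = (1 - p) * d * y + y * (y - (1 - p) * d) := by ring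
    rw [h50, h4]
    nth_rewrite 2 [h5]
    have h51 : 0 < (1 + d / 2) := by positivity
    -- need `(p c + d q) (p c) < q^2`, `c = 1 + d / 2`
    have h6 : (p * (1 + d / 2) + d * (1 - p)) * (p * (1 + d / 2)) < (1 - p) ^ 2 := by
      have h7 : (p * (1 + d / 2)) ^ 2 < p ^ 2 * (1 + d + d ^ 2 / 2) := by
        have : (1 + d / 2) ^ 2 < 1 + d + d ^ 2 / 2 := by nlinarith [sq_pos_of_pos hdpos]
        rw [mul_pow]
        exact mul_lt_mul_of_pos_left this (by positivity)
      have h8 : p * (p * (1 + d + d ^ 2 / 2)) ≤ p * (1 - p) :=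
        mul_le_mul_of_nonneg_left hE3 h0.le
      -- q (q - p (d + d^2/2)) ≥ q p
      have h9 : (1 - p) * p ≤ (1 - p) * ((1 - p) - p * (d + d ^ 2 / 2)) := by
        apply mul_le_mul_of_nonneg_left _ hq.le
        nlinarith
      have h10 : (p * (1 + d / 2) + d * (1 - p)) * (p * (1 + d / 2)) =
          (p * (1 + d / 2)) ^ 2 + (1 - p) * (p * (d + d ^ 2 / 2)) := by ring
      rw [h10]
      have h11 : p ^ 2 * (1 + d + d ^ 2 / 2) = p * (p * (1 + d + d ^ 2 / 2)) := by ring
      linarith
    linarith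
  have h2p : 0 < 2 - p := by linarith
  have hypos : 0 < y := by rw [hy]; positivity
  have hx : 0 < p * a := by positivity
  have hpb : 0 < (1 - p) * d * b := by positivity
  have hqb : 0 < (1 - p) ^ 2 * b ^ 2 := by positivity
  have h10 : (b * y) ^ 2 < ((1 - p) * d * b) * (b * y) + (1 - p) ^ 2 * b ^ 2 := by
    have := mul_lt_mul_of_pos_left hyy (sq_pos_of_pos hb)
    calc (b * y) ^ 2 = b ^ 2 * y ^ 2 := by ring
      _ < b ^ 2 * ((1 - p) * d * y + (1 - p) ^ 2) := this
      _ = _ := by ring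
  have key := quad_aux hx hqb hy2 h10
  have e3 : p * (1 - p) * (a * b) * d = ((1 - p) * d * b) * (p * a) := by ring
  rw [e3, mul_pow (1 - p) b]
  linarith

end V11309.KRec
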