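import Pool.Agent.V11309.KRec.Shape2
import Pool.Agent.V11309.KRec.Defs

/-! The function `s` on `[1/2, 1]`. -/

namespace V11309.KRec

open MeasureTheory Set Filter Topology

lemma dens_eq (N M : ℕ) (x : ℝ) :
    dens (M + 2) (N + 1) x =
      (((M + 2 : ℕ) : ℝ) ^ (N + 2) / ((N + 1).factorial : ℝ)) * SA N M (1 - x) := by
  unfold dens SA
  rw [show M + 2 - 1 = M + 1 by omega]
  ring

lemma sfun_eq (N M : ℕ) (x : ℝ) :
    sfun (M + 2) (N + 1) x =
      (((M + 2 : ℕ) : ℝ) ^ (N + 2) / ((N + 1).factorial : ℝ)) * SS N M (1 - x) := by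
  unfold sfun SS
  rw [dens_eq, dens_eq]
  ring

lemma cst_pos (N M : ℕ) : 0 < (((M + 2 : ℕ) : ℝ) ^ (N + 2) / ((N + 1).factorial : ℝ)) := by
  positivity

lemma continuousOn_sfun (N M : ℕ) : ContinuousOn (sfun (M + 2) (N + 1)) (Icc 0 1) := by
  have h : ContinuousOn (fun x => (((M + 2 : ℕ) : ℝ) ^ (N + 2) / ((N + 1).factorial : ℝ)) *
      SS N M (1 - x)) (Icc 0 1) := by
    apply ContinuousOn.mul continuousOn_const
    refine (continuousOn_SS N M).comp (by fun_prop) ?_
    intro x hx
    exact ⟨by linarith [hx.2], by linarith [hx.1]⟩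
  exact h.congr fun x _ => sfun_eq N M x

lemma continuousOn_dens (N M : ℕ) : ContinuousOn (dens (M + 2) (N + 1)) (Icc 0 1) := by
  have h : ContinuousOn (fun x => (((M + 2 : ℕ) : ℝ) ^ (N + 2) / ((N + 1).factorial : ℝ)) *
      SA N M (1 - x)) (Icc 0 1) := by
    apply ContinuousOn.mul continuousOn_const
    refine (continuousOn_SA N M).comp (by fun_prop) ?_
    intro x hx
    exact mem_Ici.mpr (by linarith [hx.2])
  exact h.congr fun x _ => dens_eq N M x

lemma sfun_half (N M : ℕ) : sfun (M + 2) (N + 1) (1 / 2) = 0 := by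
  rw [sfun_eq, show (1 : ℝ) - 1 / 2 = 1 / 2 by norm_num, SS_half, mul_zero]

/-- the two possible shapes. -/
def Neg (s : ℝ → ℝ) : Prop := ∀ x, 1 / 2 < x → x < 1 → s x < 0

def Hump (s : ℝ → ℝ) (z : ℝ) : Prop :=
  1 / 2 < z ∧ z < 1 ∧ StrictMonoOn s (Icc (1 / 2) z) ∧
    ∀ x y, z ≤ x → x < y → y < 1 → 0 ≤ s y → s y < s x

theorem shape (N M : ℕ) : Neg (sfun (M + 2) (N + 1)) ∨ ∃ z, Hump (sfun (M + 2) (N + 1)) z := by
  have hc := cst_pos N M
  rcases le_or_gt ((N : ℝ) + 1) (((M : ℝ) + 1) * Real.log 2) with h | h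
  · left
    intro x hx hx1
    rw [sfun_eq]
    exact mul_neg_of_pos_of_neg hc (shapeA N M h (by linarith) (by linarith))
  · right
    obtain ⟨z, hz0, hz1, hanti, hleft⟩ := shapeB N M h
    refine ⟨1 - z, by linarith, by linarith, ?_, ?_⟩
    · intro x hx y hy hxy
      simp only [sfun_eq]
      apply mul_lt_mul_of_pos_left _ hc
      exact hanti ⟨by linarith [hy.2], by linarith [hy.1]⟩ ⟨by linarith [hx.2], by linarith [hx.1]⟩
        (by linarith)
    · intro x y hx hxy hy hs
      simp only [sfun_eq] at hs ⊢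
      apply mul_lt_mul_of_pos_left _ hc
      apply hleft (1 - y) (1 - x) (by linarith) (by linarith) (by linarith)
      exact nonneg_of_mul_nonneg_right hs hc

/-- crossing pattern above a nonnegative level. -/
lemma pattern {s : ℝ → ℝ} (hs : Neg s ∨ ∃ z, Hump s z) {α : ℝ} (hα : 1 / 2 ≤ α)
    (hc : 0 ≤ s α) : ∀ x ∈ Ioo α 1, ∀ y ∈ Ioo α 1, x < y → 0 ≤ s y - s α → 0 ≤ s x - s α := by
  intro x hx y hy hxy h
  rcases hs with hs | ⟨z, hz1, hz2, hmono, hright⟩
  · have := hs y (by linarith [hy.1]) hy.2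
    linarith
  · rcases le_or_gt z x with h1 | h1
    · have := hright x y h1 hxy hy.2 (by linarith)
      linarith
    · have := hmono ⟨hα, by linarith [hx.1]⟩ ⟨by linarith [hx.1], h1.le⟩ hx.1
      linarith

lemma sfun_one (N M : ℕ) : sfun (M + 2) (N + 1) 1 = 0 := by
  rw [sfun_eq, show (1 : ℝ) - 1 = 0 by norm_num, SS_zero, mul_zero]

/-! existence and uniqueness of `α` -/

/-- defining property of `α`. -/
def IsAlpha (s : ℝ → ℝ) (α : ℝ) : Prop :=
  1 / 2 < α ∧ α < 1 ∧ 0 < s α ∧ (1 - α) * s α = ∫ x in α..1, s x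

lemma alpha_exists {s : ℝ → ℝ} (hcont : ContinuousOn s (Icc (1 / 2) 1))
    (h0 : s (1 / 2) = 0) (h1' : s 1 = 0) (hs : Neg s ∨ ∃ z, Hump s z) (hint : 0 < ∫ x in (1 / 2)..1, s x) :
    ∃ α, IsAlpha s α := by
  rcases hs with hs | ⟨z, hz1, hz2, hmono, hright⟩
  · exfalso
    have h1 : ∫ x in (1 / 2 : ℝ)..1, s x ≤ 0 := by
      have hle : ∫ x in (1 / 2 : ℝ)..1, s x ≤ ∫ x in (1 / 2 : ℝ)..1, (0 : ℝ) := by
        apply intervalIntegral.integral_mono_on_of_le_Ioo (by norm_num)
        · apply ContinuousOn.intervalIntegrable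
          rw [uIcc_of_le (by norm_num)]
          exact hcont
        · exact intervalIntegrable_const
        · intro x hx
          exact (hs x hx.1 hx.2).le
      simpa using hle
    linarith
  · have hz0 : 0 < s z := by
      have := hmono ⟨le_rfl, hz1.le⟩ ⟨hz1.le, le_rfl⟩ hz1
      linarith
    have hint1 : ∀ a b, a ∈ Icc (1 / 2 : ℝ) 1 → b ∈ Icc (1 / 2 : ℝ) 1 →
        IntervalIntegrable s volume a b := by
      intro a b ha hb
      apply ContinuousOn.intervalIntegrable
      exact hcont.mono (ordConnected_Icc.uIcc_subset ha hb)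
    -- the function ψ
    have hcψ : ContinuousOn (fun a => (1 - a) * s a - ∫ x in a..1, s x) (Icc (1 / 2) z) := by
      apply ContinuousOn.sub
      · apply ContinuousOn.mul (by fun_prop)
        exact hcont.mono (Icc_subset_Icc le_rfl hz2.le)
      · have h1 : ContinuousOn (fun a => ∫ x in (1 : ℝ)..a, s x) (uIcc 1 (1 / 2)) := by
          apply intervalIntegral.continuousOn_primitive_interval
          rw [uIcc_of_ge (by norm_num)]
          exact hcont.integrableOn_Icc
        have h2 : ContinuousOn (fun a => - ∫ x in (1 : ℝ)..a, s x) (Icc (1 / 2) z) := by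
          apply ContinuousOn.neg
          apply h1.mono
          rw [uIcc_of_ge (by norm_num)]
          exact Icc_subset_Icc le_rfl hz2.le
        exact h2.congr fun a _ => intervalIntegral.integral_symm _ _
    have hψz : 0 < (1 - z) * s z - ∫ x in z..1, s x := by
      have h1 : ∫ x in z..1, s x < ∫ x in z..1, s z := by
        apply intervalIntegral.integral_lt_integral_of_continuousOn_of_le_of_exists_lt hz2
        · exact hcont.mono (Icc_subset_Icc hz1.le le_rfl)
        · exact continuousOn_const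
        · intro x hx
          rcases hx.2.eq_or_lt with h | h
          · rw [h, h1']
            exact hz0.le
          · by_contra hcon
            push Not at hcon
            have := hright z x le_rfl hx.1 h (by linarith)
            linarith
        · exact ⟨1, ⟨hz2.le, le_rfl⟩, by rw [h1']; exact hz0⟩
      rw [intervalIntegral.integral_const, smul_eq_mul] at h1
      linarith
    have hψh : (1 - 1 / 2) * s (1 / 2) - ∫ x in (1 / 2)..1, s x < 0 := by
      rw [h0, mul_zero]
      linarith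
    obtain ⟨α, hα, hα0⟩ : ∃ α ∈ Ioo (1 / 2) z, (1 - α) * s α - ∫ x in α..1, s x = 0 := by
      have := intermediate_value_Ioo hz1.le hcψ ⟨hψh, hψz⟩
      exact this
    refine ⟨α, hα.1, by linarith [hα.2], ?_, by linarith⟩
    have := hmono ⟨le_rfl, hz1.le⟩ ⟨hα.1.le, hα.2.le⟩ hα.1
    linarith

lemma alpha_unique_aux {s : ℝ → ℝ} (hcont : ContinuousOn s (Icc (1 / 2) 1))
    (h1' : s 1 = 0) (hs : Neg s ∨ ∃ z, Hump s z) {α β : ℝ} (hα : IsAlpha s α) (hβ : IsAlpha s β)
    (hlt : α < β) : False := by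
  obtain ⟨a1, a2, a3, a4⟩ := hα
  obtain ⟨b1, b2, b3, b4⟩ := hβ
  have hint1 : ∀ a b, a ∈ Icc (1 / 2 : ℝ) 1 → b ∈ Icc (1 / 2 : ℝ) 1 →
      IntervalIntegrable s volume a b := by
    intro a b ha hb
    apply ContinuousOn.intervalIntegrable
    exact hcont.mono (ordConnected_Icc.uIcc_subset ha hb)
  rcases hs with hs | ⟨z, hz1, hz2, hmono, hright⟩
  · have := hs α a1 a2
    linarith
  · rcases le_or_gt β z with hβz | hβz
    · -- both on the increasing part
      have h1 : ∫ x in α..1, s x = (∫ x in α..β, s x) + ∫ x in β..1, s x :=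
        (intervalIntegral.integral_add_adjacent_intervals
          (hint1 _ _ ⟨a1.le, a2.le⟩ ⟨b1.le, b2.le⟩)
          (hint1 _ _ ⟨b1.le, b2.le⟩ ⟨by norm_num, le_rfl⟩)).symm
      have h2 : ∫ x in α..β, s α ≤ ∫ x in α..β, s x := by
        apply intervalIntegral.integral_mono_on hlt.le intervalIntegrable_const
          (hint1 _ _ ⟨a1.le, a2.le⟩ ⟨b1.le, b2.le⟩)
        intro x hx
        rcases hx.1.eq_or_lt with h | h
        · rw [h]
        · exact (hmono ⟨a1.le, by linarith⟩ ⟨by linarith, by linarith [hx.2]⟩ h).le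
      rw [intervalIntegral.integral_const, smul_eq_mul] at h2
      have h3 := hmono ⟨a1.le, by linarith⟩ ⟨b1.le, hβz⟩ hlt
      have h4 := mul_lt_mul_of_pos_left h3 (by linarith : 0 < 1 - β)
      nlinarith
    · have h1 : ∫ x in β..1, s x < ∫ x in β..1, s β := by
        apply intervalIntegral.integral_lt_integral_of_continuousOn_of_le_of_exists_lt b2
        · exact hcont.mono (Icc_subset_Icc b1.le le_rfl)
        · exact continuousOn_const
        · intro x hx
          rcases hx.2.eq_or_lt with h | h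
          · rw [h, h1']
            exact b3.le
          · by_contra hcon
            push Not at hcon
            have := hright β x hβz.le hx.1 h (by linarith)
            linarith
        · exact ⟨1, ⟨b2.le, le_rfl⟩, by rw [h1']; exact b3⟩
      rw [intervalIntegral.integral_const, smul_eq_mul] at h1
      linarith

lemma alpha_unique {s : ℝ → ℝ} (hcont : ContinuousOn s (Icc (1 / 2) 1))
    (h1' : s 1 = 0) (hs : Neg s ∨ ∃ z, Hump s z) {α β : ℝ} (hα : IsAlpha s α)
    (hβ : IsAlpha s β) : α = β := by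
  rcases lt_trichotomy α β with h | h | h
  · exact (alpha_unique_aux hcont h1' hs hα hβ h).elim
  · exact h
  · exact (alpha_unique_aux hcont h1' hs hβ hα h).elim

/-- rearrangement inequality. -/
lemma lemM {α : ℝ} {g h : ℝ → ℝ} (hg : MonotoneOn g (Ioo α 1)) (hg0 : ∀ x ∈ Ioo α 1, 0 ≤ g x)
    (hpat : ∀ x ∈ Ioo α 1, ∀ y ∈ Ioo α 1, x < y → 0 ≤ h y → 0 ≤ h x)
    (hh : IntegrableOn h (Ioo α 1)) (hgh : IntegrableOn (fun x => g x * h x) (Ioo α 1))
    (hneg : ∫ x in Ioo α 1, h x ≤ 0) : ∫ x in Ioo α 1, g x * h x ≤ 0 := by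
  by_cases hall : ∀ x ∈ Ioo α 1, 0 ≤ h x
  · have h0 : ∫ x in Ioo α 1, h x = 0 :=
      le_antisymm hneg (setIntegral_nonneg measurableSet_Ioo hall)
    have h1 : h =ᵐ[volume.restrict (Ioo α 1)] 0 := by
      rw [← setIntegral_eq_zero_iff_of_nonneg_ae _ hh]
      · exact h0
      · exact (ae_restrict_iff' measurableSet_Ioo).mpr (Eventually.of_forall hall)
    have h2 : ∫ x in Ioo α 1, g x * h x = 0 := by
      rw [integral_eq_zero_of_ae]
      filter_upwards [h1] with x hx
      rw [hx]
      simp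
    rw [h2]
  · push Not at hall
    obtain ⟨x0, hx0, hx0'⟩ := hall
    by_cases hemp : ∃ x ∈ Ioo α 1, 0 ≤ h x
    · obtain ⟨x1, hx1, hx1'⟩ := hemp
      set T := {x | x ∈ Ioo α 1 ∧ 0 ≤ h x} with hT
      have hTb : ∀ x ∈ T, x ≤ x0 := by
        intro x hx
        by_contra hcon
        push Not at hcon
        have := hpat x0 hx0 x hx.1 hcon hx.2
        linarith
      have hbdd : BddAbove T := ⟨x0, hTb⟩
      have hne : T.Nonempty := ⟨x1, hx1, hx1'⟩
      set β := sSup T with hβ
      have hβ1 : x1 ≤ β := le_csSup hbdd ⟨hx1, hx1'⟩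
      have hβ2 : β ≤ x0 := csSup_le hne hTb
      have hβm : β ∈ Ioo α 1 := ⟨by linarith [hx1.1], by linarith [hx0.2]⟩
      have hpt : ∀ x ∈ Ioo α 1, g x * h x ≤ g β * h x := by
        intro x hx
        rcases lt_trichotomy x β with hlt | heq | hgt
        · obtain ⟨y, hy, hxy⟩ := exists_lt_of_lt_csSup hne hlt
          have h1 := hpat x hx y hy.1 hxy hy.2
          exact mul_le_mul_of_nonneg_right (hg hx hβm hlt.le) h1
        · rw [heq]
        · have h1 : h x < 0 := by
            by_contra hcon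
            push Not at hcon
            have := le_csSup hbdd (show x ∈ T from ⟨hx, hcon⟩)
            linarith
          exact mul_le_mul_of_nonpos_right (hg hβm hx hgt.le) h1.le
      calc ∫ x in Ioo α 1, g x * h x ≤ ∫ x in Ioo α 1, g β * h x :=
            setIntegral_mono_on hgh (hh.const_mul _) measurableSet_Ioo hpt
        _ = g β * ∫ x in Ioo α 1, h x := integral_const_mul _ _
        _ ≤ 0 := mul_nonpos_of_nonneg_of_nonpos (hg0 β hβm) hneg
    · push Not at hemp
      apply setIntegral_nonpos measurableSet_Ioo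
      intro x hx
      exact mul_nonpos_of_nonneg_of_nonpos (hg0 x hx) (hemp x hx).le

end V11309.KRec
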