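import Pool.Agent.V11309.KRec.Phi

/-! Shape of the difference of densities. -/

namespace V11309.KRec

open Real Set

noncomputable def SA (N M : ℕ) (u : ℝ) : ℝ := (-log u) ^ (N + 1) * u ^ (M + 1)

noncomputable def SS (N M : ℕ) (u : ℝ) : ℝ := SA N M u - SA N M (1 - u)

noncomputable def dSA (N M : ℕ) (u : ℝ) : ℝ :=
  (-log u) ^ N * u ^ M * ((M + 1) * (-log u) - (N + 1))

lemma hasDerivAt_SA (N M : ℕ) {u : ℝ} (h0 : 0 < u) : HasDerivAt (SA N M) (dSA N M u) u := by
  have h1 := ((hasDerivAt_a h0).pow (N + 1)).mul (hasDerivAt_pow (M + 1) u)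
  refine HasDerivAt.congr_deriv h1 ?_
  unfold dSA
  simp only [Pi.pow_apply, Nat.add_sub_cancel]
  push_cast
  field_simp
  ring

noncomputable def dSS (N M : ℕ) (u : ℝ) : ℝ :=
  (-log u) ^ N * u ^ M * ((M + 1) * (-log u) - (N + 1)) -
    (-log (1 - u)) ^ N * (1 - u) ^ M * ((N + 1) - (M + 1) * (-log (1 - u)))

lemma hasDerivAt_SS (N M : ℕ) {u : ℝ} (h0 : 0 < u) (h1 : u < 1) :
    HasDerivAt (SS N M) (dSS N M u) u := by
  have h2 : HasDerivAt (fun u : ℝ => 1 - u) (-1) u := by
    simpa using (hasDerivAt_id u).const_sub 1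
  have h3 : HasDerivAt (fun u => SA N M (1 - u)) (dSA N M (1 - u) * (-1)) u :=
    HasDerivAt.comp (h₂ := SA N M) (h := fun u : ℝ => 1 - u) u
      (hasDerivAt_SA N M (by linarith)) h2
  have h4 := (hasDerivAt_SA N M h0).sub h3
  refine HasDerivAt.congr_deriv h4 ?_
  unfold dSA dSS
  ring

/-- sign of the logarithmic derivative. -/
lemma rho_neg_aux {p a b n m : ℝ} (h0 : 0 < p) (h1 : p < 1 / 2) (hb : 0 < b) (hba : b < a)
    (hm : 0 < m) (han : n < m * a) (hbn : m * b < n)
    (hII : m * (a * b) ≤ n * (p * a + (1 - p) * b))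
    (hE : (p * a) ^ 2 - ((1 - p) * b) ^ 2 < p * (1 - p) * (a * b) * (a - b)) :
    (n - 1) * (-p⁻¹ / a) + (m - 1) * p⁻¹ + (m * (-p⁻¹)) / (m * a - n) -
      ((n - 1) * ((1 - p)⁻¹ / b) + (m - 1) * (-(1 - p)⁻¹) + (-(m * (1 - p)⁻¹)) / (n - m * b)) < 0 := by
  have hq : 0 < 1 - p := by linarith
  have ha : 0 < a := by linarith
  have hab : 0 < a - b := by linarith
  set q := 1 - p with hqdef
  set h := p * a + q * b with hh
  have hhpos : 0 < h := by positivity
  have d1 : 0 < m * a - n := by linarith
  have d2 : 0 < n - m * b := by linarith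
  -- bounds on the two denominators
  have e1 : (m * a - n) * h ≤ m * a * p * (a - b) := by
    have : m * a * p * (a - b) = m * a * h - m * (a * b) := by rw [hh, hqdef]; ring
    rw [this]
    nlinarith
  have e2 : m * b * q * (a - b) ≤ (n - m * b) * h := by
    have : m * b * q * (a - b) = m * (a * b) - m * b * h := by rw [hh, hqdef]; ring
    rw [this]
    nlinarith
  have f1 : q * h / (a * p * (a - b)) ≤ m * q / (m * a - n) := by
    rw [div_le_div_iff₀ (by positivity) d1]
    have := mul_le_mul_of_nonneg_left e1 hq.le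
    nlinarith
  have f2 : m * p / (n - m * b) ≤ p * h / (b * q * (a - b)) := by
    rw [div_le_div_iff₀ d2 (by positivity)]
    have := mul_le_mul_of_nonneg_left e2 h0.le
    nlinarith
  have f3 : h / (a * b) - 1 < q * h / (a * p * (a - b)) - p * h / (b * q * (a - b)) := by
    have g1 : q * h / (a * p * (a - b)) - p * h / (b * q * (a - b)) - (h / (a * b) - 1) =
        (p * q * (a * b) * (a - b) - ((p * a) ^ 2 - (q * b) ^ 2)) / (p * q * (a * b) * (a - b)) := by
      rw [hh]
      have hp' : p = 1 - q := by rw [hqdef]; ring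
      have hab' := hab.ne'
      have h0' := h0.ne'
      field_simp
      rw [hp']
      ring
    have g2 : 0 < (p * q * (a * b) * (a - b) - ((p * a) ^ 2 - (q * b) ^ 2)) /
        (p * q * (a * b) * (a - b)) := by
      apply div_pos (by linarith) (by positivity)
    linarith
  have f4 : m ≤ n * (h / (a * b)) := by
    rw [← mul_div_assoc, le_div_iff₀ (by positivity)]
    exact hII
  -- rewrite the derivative
  have key : (n - 1) * (-p⁻¹ / a) + (m - 1) * p⁻¹ + (m * (-p⁻¹)) / (m * a - n) -
      ((n - 1) * (q⁻¹ / b) + (m - 1) * (-q⁻¹) + (-(m * q⁻¹)) / (n - m * b)) =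
      ((m - n * (h / (a * b))) + (h / (a * b) - 1) - m * q / (m * a - n) +
        m * p / (n - m * b)) / (p * q) := by
    rw [hh]
    have d1' := d1.ne'
    have d2' := d2.ne'
    have hp' : p = 1 - q := by rw [hqdef]; ring
    have e3 : (n - 1) * (-p⁻¹ / a) + (m - 1) * p⁻¹ - ((n - 1) * (q⁻¹ / b) + (m - 1) * (-q⁻¹)) =
        ((m - n * ((p * a + q * b) / (a * b))) + ((p * a + q * b) / (a * b) - 1)) / (p * q) := by
      field_simp
      rw [hp']
      ring
    have e4 : (m * (-p⁻¹)) / (m * a - n) = (- (m * q / (m * a - n))) / (p * q) := by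
      field_simp
    have e5 : (-(m * q⁻¹)) / (n - m * b) = - ((m * p / (n - m * b)) / (p * q)) := by
      field_simp
    rw [e4, e5]
    have e6 : ∀ X Y Z W V : ℝ, X + Y + (-Z) / (p * q) - (W + V + -(m * p / (n - m * b) / (p * q))) =
        (X + Y - (W + V)) + (-Z + m * p / (n - m * b)) / (p * q) := by
      intro X Y Z W V
      ring
    rw [e6, e3]
    ring
  rw [key]
  apply div_neg_of_neg_of_pos _ (by positivity)
  linarith

lemma phi_eq {u : ℝ} (h0 : 0 < u) (h1 : u < 1) :
    phi u = (u * (-log u) + (1 - u) * (-log (1 - u))) / ((-log u) * (-log (1 - u))) := by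
  have ha := (a_pos h0 h1).ne'
  have hb := (b_pos h0 h1).ne'
  unfold phi
  generalize (-log u) = a at *
  generalize (-log (1 - u)) = b at *
  field_simp
  ring

lemma lemK (N M : ℕ) {z : ℝ} (h0 : 0 < z) (hS : 0 ≤ SS N M z) (hd : dSS N M z ≤ 0)
    (hNM : ((M : ℝ) + 1) * log 2 < N + 1) :
    ∀ u, z < u → u < 1 / 2 → dSS N M u < 0 := by
  intro u hzu hu
  set n : ℝ := (N : ℝ) + 1 with hn
  set m : ℝ := (M : ℝ) + 1 with hm
  have hm0 : 0 < m := by positivity
  have hn0 : 0 < n := by positivity
  have hu0 : 0 < u := by linarith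
  have hbn : ∀ v, 0 < v → v < 1 / 2 → m * (-log (1 - v)) < n := by
    intro v hv hv'
    have := mul_lt_mul_of_pos_left (b_lt_log2 hv hv') hm0
    linarith
  rcases le_or_gt (m * (-log u)) n with hc | hc
  · -- first term nonpositive
    have t1 : (-log u) ^ N * u ^ M * (m * (-log u) - n) ≤ 0 := by
      apply mul_nonpos_of_nonneg_of_nonpos
      · have := a_pos hu0 (by linarith)
        positivity
      · linarith
    have t2 : 0 < (-log (1 - u)) ^ N * (1 - u) ^ M * (n - m * (-log (1 - u))) := by
      have := b_pos hu0 (by linarith : u < 1)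
      have h3 := hbn u hu0 hu
      have h4 : 0 < 1 - u := by linarith
      have h5 : 0 < n - m * (-log (1 - u)) := by linarith
      positivity
    unfold dSS
    linarith
  · -- second case
    have hcv : ∀ v, z ≤ v → v ≤ u → n < m * (-log v) := by
      intro v hv hv'
      have : -log u ≤ -log v := by
        have := Real.log_le_log (by linarith : 0 < v) hv'
        linarith
      have := mul_le_mul_of_nonneg_left this hm0.le
      linarith
    -- (II) at z
    have hII : m ≤ n * phi z := by
      have hz1 : z < 1 := by linarith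
      have ha := a_pos h0 hz1
      have hb := b_pos h0 hz1
      have hz2 : 0 < 1 - z := by linarith
      have hcz := hcv z le_rfl hzu.le
      have hbz := hbn z h0 (by linarith)
      rw [phi_eq h0 hz1, ← mul_div_assoc, le_div_iff₀ (by positivity)]
      unfold SS SA at hS
      unfold dSS at hd
      rw [← hn, ← hm] at hd
      have hqz : (1 - z) + z = 1 := by ring
      generalize (-log z) = a at *
      generalize (-log (1 - z)) = b at *
      generalize (1 - z) = q at *
      have hX : 0 < a ^ N * z ^ M := by positivity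
      -- S ≥ 0
      have s1 : b * q * (b ^ N * q ^ M) ≤ a * z * (a ^ N * z ^ M) := by
        have e1 : b * q * (b ^ N * q ^ M) = b ^ (N + 1) * q ^ (M + 1) := by ring
        have e2 : a * z * (a ^ N * z ^ M) = a ^ (N + 1) * z ^ (M + 1) := by ring
        linarith
      have s2 : a ^ N * z ^ M * (m * a - n) ≤ b ^ N * q ^ M * (n - m * b) := by linarith
      have s3 : b * q * (a ^ N * z ^ M * (m * a - n)) ≤ b * q * (b ^ N * q ^ M * (n - m * b)) :=
        mul_le_mul_of_nonneg_left s2 (by positivity)
      have s4 : b * q * (b ^ N * q ^ M) * (n - m * b) ≤ a * z * (a ^ N * z ^ M) * (n - m * b) :=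
        mul_le_mul_of_nonneg_right s1 (by linarith)
      have s5 : (a ^ N * z ^ M) * (b * q * (m * a - n)) ≤ (a ^ N * z ^ M) * (a * z * (n - m * b)) := by
        nlinarith
      have s6 := le_of_mul_le_mul_left s5 hX
      have hq' : q * (m * (a * b)) + z * (m * (a * b)) ≤ n * (z * a + q * b) := by nlinarith
      have : q * (m * (a * b)) + z * (m * (a * b)) = m * (a * b) := by
        rw [← add_mul, hqz, one_mul]
      linarith
    -- the logarithm of the ratio of the two terms
    set rho : ℝ → ℝ := fun v => (N : ℝ) * log (-log v) + M * log v + log (m * (-log v) - n) -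
      ((N : ℝ) * log (-log (1 - v)) + M * log (1 - v) + log (n - m * (-log (1 - v)))) with hrho
    have hder : ∀ v, z ≤ v → v ≤ u → HasDerivAt rho
        ((n - 1) * (-v⁻¹ / (-log v)) + (m - 1) * v⁻¹ + (m * (-v⁻¹)) / (m * (-log v) - n) -
      ((n - 1) * ((1 - v)⁻¹ / (-log (1 - v))) + (m - 1) * (-(1 - v)⁻¹) +
        (-(m * (1 - v)⁻¹)) / (n - m * (-log (1 - v))))) v := by
      intro v hv hv'
      have hv0 : 0 < v := by linarith
      have hv1 : v < 1 := by linarith
      have ha := a_pos hv0 hv1
      have hb := b_pos hv0 hv1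
      have hc1 := hcv v hv hv'
      have hc2 := hbn v hv0 (by linarith)
      have h2 : HasDerivAt (fun u : ℝ => 1 - u) (-1) v := by
        simpa using (hasDerivAt_id v).const_sub 1
      have d1 := ((hasDerivAt_a hv0).log ha.ne').const_mul (N : ℝ)
      have d2 := (Real.hasDerivAt_log hv0.ne').const_mul (M : ℝ)
      have d3 := (((hasDerivAt_a hv0).const_mul m).sub_const n).log (by linarith)
      have d4 := ((hasDerivAt_b hv1).log hb.ne').const_mul (N : ℝ)
      have d5 := (h2.log (by linarith)).const_mul (M : ℝ)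
      have d6 := (((hasDerivAt_b hv1).const_mul m).const_sub n).log (by linarith)
      have d7 := ((d1.add d2).add d3).sub ((d4.add d5).add d6)
      refine HasDerivAt.congr_deriv d7 ?_
      rw [hn, hm]
      ring
    have hanti : StrictAntiOn rho (Icc z u) := by
      apply strictAntiOn_of_deriv_neg (convex_Icc z u)
      · exact fun v hv => (hder v hv.1 hv.2).continuousAt.continuousWithinAt
      · intro v hv
        rw [interior_Icc] at hv
        rw [(hder v hv.1.le hv.2.le).deriv]
        have hv0 : 0 < v := by linarith [hv.1]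
        have hv2 : v < 1 / 2 := by linarith [hv.2]
        have hv1 : v < 1 := by linarith
        have hIIv : m ≤ n * phi v := by
          have := phi_strictMonoOn ⟨h0, by linarith [hv.1]⟩ ⟨hv0, hv2.le⟩ hv.1
          have := mul_le_mul_of_nonneg_left this.le hn0.le
          linarith
        rw [phi_eq hv0 hv1, ← mul_div_assoc,
          le_div_iff₀ (mul_pos (a_pos hv0 hv1) (b_pos hv0 hv1))] at hIIv
        exact rho_neg_aux hv0 hv2 (b_pos hv0 hv1) (b_lt_a hv0 hv2) hm0
          (hcv v hv.1.le hv.2.le) (hbn v hv0 hv2) hIIv (keyE hv0 hv2)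
    -- sign relation
    have hlog : ∀ v, z ≤ v → v ≤ u →
        (0 < (-log v) ^ N * v ^ M * (m * (-log v) - n)) ∧
        (0 < (-log (1 - v)) ^ N * (1 - v) ^ M * (n - m * (-log (1 - v)))) ∧
        rho v = log ((-log v) ^ N * v ^ M * (m * (-log v) - n)) -
          log ((-log (1 - v)) ^ N * (1 - v) ^ M * (n - m * (-log (1 - v)))) := by
      intro v hv hv'
      have hv0 : 0 < v := by linarith
      have hv1 : v < 1 := by linarith
      have ha := a_pos hv0 hv1
      have hb := b_pos hv0 hv1
      have hq : 0 < 1 - v := by linarith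
      have hc1 : 0 < m * (-log v) - n := by linarith [hcv v hv hv']
      have hc2 : 0 < n - m * (-log (1 - v)) := by linarith [hbn v hv0 (by linarith)]
      refine ⟨by positivity, by positivity, ?_⟩
      rw [Real.log_mul (by positivity) hc1.ne', Real.log_mul (by positivity) (by positivity),
        Real.log_mul (by positivity) hc2.ne', Real.log_mul (by positivity) (by positivity),
        Real.log_pow, Real.log_pow, Real.log_pow, Real.log_pow]
    obtain ⟨p1, p2, p3⟩ := hlog z le_rfl hzu.le
    obtain ⟨q1, q2, q3⟩ := hlog u hzu.le le_rfl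
    have r1 : rho z ≤ 0 := by
      rw [p3, sub_nonpos]
      apply Real.log_le_log p1
      unfold dSS at hd
      rw [← hn, ← hm] at hd
      linarith
    have r2 : rho u < 0 := by
      have := hanti ⟨le_rfl, hzu.le⟩ ⟨hzu.le, le_rfl⟩ hzu
      linarith
    rw [q3, sub_neg] at r2
    have r3 := (Real.log_lt_log_iff q1 q2).mp r2
    unfold dSS
    rw [← hn, ← hm]
    linarith

/-- case `t ≤ log 2`. -/
lemma dSS_pos_of_le (N M : ℕ) {u : ℝ} (h0 : 0 < u) (hu : u < 1 / 2) (hS : 0 ≤ SS N M u)
    (hNM : (N : ℝ) + 1 ≤ ((M : ℝ) + 1) * log 2) : 0 < dSS N M u := by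
  set n : ℝ := (N : ℝ) + 1 with hn
  set m : ℝ := (M : ℝ) + 1 with hm
  have hm0 : 0 < m := by positivity
  have hn0 : 0 < n := by positivity
  have hu1 : u < 1 := by linarith
  have ha := a_pos h0 hu1
  have hb := b_pos h0 hu1
  have hq : 0 < 1 - u := by linarith
  have hla : n < m * (-log u) := by
    have := mul_lt_mul_of_pos_left (log2_lt_a h0 hu) hm0
    linarith
  have hphi : n * phi u < m := by
    have h1 := phi_strictMonoOn ⟨h0, hu.le⟩ ⟨by norm_num, le_rfl⟩ hu
    rw [phi_half] at h1
    have h2 := mul_lt_mul_of_pos_left h1 hn0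
    have h3 : 0 < log 2 := Real.log_pos (by norm_num)
    have h4 : n * (1 / log 2) ≤ m := by
      rw [mul_one_div, div_le_iff₀ h3]
      exact hNM
    linarith
  have hII : n * (u * (-log u) + (1 - u) * (-log (1 - u))) < m * ((-log u) * (-log (1 - u))) := by
    rw [phi_eq h0 hu1, ← mul_div_assoc, div_lt_iff₀ (mul_pos ha hb)] at hphi
    exact hphi
  have hqz : (1 - u) + u = 1 := by ring
  unfold SS SA at hS
  unfold dSS
  rw [← hn, ← hm]
  clear_value n m
  clear hn hm hphi
  generalize (-log u) = a at *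
  generalize (-log (1 - u)) = b at *
  generalize (1 - u) = q at *
  have hX : 0 < a ^ N * u ^ M := by positivity
  have hY : 0 < b ^ N * q ^ M := by positivity
  rcases le_or_gt n (m * b) with hc | hc
  · have t1 : 0 < a ^ N * u ^ M * (m * a - n) := mul_pos hX (by linarith)
    have t2 : b ^ N * q ^ M * (n - m * b) ≤ 0 := mul_nonpos_of_nonneg_of_nonpos hY.le (by linarith)
    linarith
  · have s1 : b * q * (b ^ N * q ^ M) ≤ a * u * (a ^ N * u ^ M) := by
      have e1 : b * q * (b ^ N * q ^ M) = b ^ (N + 1) * q ^ (M + 1) := by ring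
      have e2 : a * u * (a ^ N * u ^ M) = a ^ (N + 1) * u ^ (M + 1) := by ring
      linarith
    have s2 : a * u * (n - m * b) < b * q * (m * a - n) := by
      have e3 : m * (a * b) = q * (m * (a * b)) + u * (m * (a * b)) := by
        rw [← add_mul, hqz, one_mul]
      have e4 : b * q * (m * a - n) - a * u * (n - m * b) =
          (q * (m * (a * b)) + u * (m * (a * b))) - n * (u * a + q * b) := by ring
      linarith
    have s3 : b * q * (b ^ N * q ^ M) * (n - m * b) ≤ a * u * (a ^ N * u ^ M) * (n - m * b) :=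
      mul_le_mul_of_nonneg_right s1 (by linarith)
    have s4 : (a ^ N * u ^ M) * (a * u * (n - m * b)) < (a ^ N * u ^ M) * (b * q * (m * a - n)) :=
      mul_lt_mul_of_pos_left s2 hX
    have s5 : b * q * (b ^ N * q ^ M * (n - m * b)) < b * q * (a ^ N * u ^ M * (m * a - n)) := by
      nlinarith
    have := lt_of_mul_lt_mul_left s5 (by positivity)
    linarith

end V11309.KRec
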