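import Pool.Agent.V11309.KRec.Shape

/-! Quasi-concavity of the difference of densities above nonnegative levels. -/

namespace V11309.KRec

open Real Set Filter Topology

lemma SA_eq (N M : ℕ) {u : ℝ} (hu : 0 ≤ u) :
    SA N M u = u ^ M * (((N : ℝ) + 1) * negMulLog (u ^ (1 / ((N : ℝ) + 1)))) ^ (N + 1) := by
  have hN : (0 : ℝ) < (N : ℝ) + 1 := by positivity
  have e1 : (u ^ (1 / ((N : ℝ) + 1))) ^ (N + 1) = u := by
    rw [← Real.rpow_natCast, ← Real.rpow_mul hu]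
    push_cast
    rw [one_div, inv_mul_cancel₀ hN.ne', Real.rpow_one]
  have e2 : ((N : ℝ) + 1) * log (u ^ (1 / ((N : ℝ) + 1))) = log u := by
    rcases hu.eq_or_lt with h | h
    · rw [← h, Real.zero_rpow (by positivity)]
      simp
    · rw [Real.log_rpow h, ← mul_assoc, mul_one_div, div_self hN.ne', one_mul]
  unfold SA negMulLog
  have e3 : ((N : ℝ) + 1) * (-(u ^ (1 / ((N : ℝ) + 1))) * log (u ^ (1 / ((N : ℝ) + 1)))) =
      (u ^ (1 / ((N : ℝ) + 1))) * (-log u) := by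
    rw [← e2]
    ring
  rw [e3, mul_pow, e1, pow_succ u M]
  ring

lemma continuousOn_SA (N M : ℕ) : ContinuousOn (SA N M) (Ici 0) := by
  have h : Continuous fun u : ℝ =>
      u ^ M * (((N : ℝ) + 1) * negMulLog (u ^ (1 / ((N : ℝ) + 1)))) ^ (N + 1) := by
    have h1 : Continuous fun u : ℝ => u ^ (1 / ((N : ℝ) + 1)) :=
      Real.continuous_rpow_const (by positivity)
    have h2 := continuous_negMulLog.comp h1
    exact (continuous_pow M).mul ((continuous_const.mul h2).pow (N + 1))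
  exact h.continuousOn.congr fun u hu => SA_eq N M hu

lemma continuousOn_SS (N M : ℕ) : ContinuousOn (SS N M) (Icc 0 1) := by
  apply ContinuousOn.sub
  · exact (continuousOn_SA N M).mono fun u hu => hu.1
  · refine (continuousOn_SA N M).comp (by fun_prop) ?_
    intro u hu
    exact mem_Ici.mpr (by linarith [hu.2])

lemma SS_zero (N M : ℕ) : SS N M 0 = 0 := by
  unfold SS SA
  simp

lemma SS_half (N M : ℕ) : SS N M (1 / 2) = 0 := by
  unfold SS
  norm_num

lemma exists_right {f : ℝ → ℝ} {d z y : ℝ} (h : HasDerivAt f d z) (hd : 0 < d) (hzy : z < y) :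
    ∃ w, z < w ∧ w < y ∧ f z < f w := by
  have h1 := (hasDerivWithinAt_iff_tendsto_slope' (s := Ioi z) self_notMem_Ioi).mp
    h.hasDerivWithinAt
  have h2 : ∀ᶠ w in 𝓝[>] z, 0 < slope f z w := h1.eventually (lt_mem_nhds hd)
  have h3 : ∀ᶠ w in 𝓝[>] z, w ∈ Ioo z y := Ioo_mem_nhdsGT hzy
  obtain ⟨w, hw1, hw2⟩ := (h2.and h3).exists
  refine ⟨w, hw2.1, hw2.2, ?_⟩
  have := (slope_pos_iff_of_le hw2.1.le).mp hw1
  exact this

lemma exists_left {f : ℝ → ℝ} {d z y : ℝ} (h : HasDerivAt f d z) (hd : d < 0) (hzy : y < z) :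
    ∃ w, y < w ∧ w < z ∧ f z < f w := by
  have h1 : HasDerivAt (fun x => f (-x)) (-d) (-z) := by
    have h2 : HasDerivAt (fun x : ℝ => -x) (-1) (-z) := (hasDerivAt_id _).neg
    have h3 : HasDerivAt f d (-(-z)) := by rwa [neg_neg]
    have h4 : HasDerivAt (fun x => f (-x)) (d * (-1)) (-z) := HasDerivAt.comp (-z) h3 h2
    exact h4.congr_deriv (by ring)
  obtain ⟨w, w1, w2, w3⟩ := exists_right h1 (by linarith) (by linarith : -z < -y)
  refine ⟨-w, by linarith, by linarith, ?_⟩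
  simpa using w3

theorem shapeA (N M : ℕ) (hNM : (N : ℝ) + 1 ≤ ((M : ℝ) + 1) * log 2) {v : ℝ} (h0 : 0 < v)
    (hv : v < 1 / 2) : SS N M v < 0 := by
  by_contra hcon
  push Not at hcon
  have hc : ContinuousOn (SS N M) (Icc v (1 / 2)) :=
    (continuousOn_SS N M).mono (Icc_subset_Icc h0.le (by norm_num))
  obtain ⟨z0, hz0, hmax0⟩ := isCompact_Icc.exists_isMaxOn (nonempty_Icc.mpr hv.le) hc
  obtain ⟨z, hz1, hz2, hmax⟩ : ∃ z, v ≤ z ∧ z < 1 / 2 ∧ ∀ y ∈ Icc v (1 / 2), SS N M y ≤ SS N M z := by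
    rcases hz0.2.eq_or_lt with h | h
    · refine ⟨v, le_rfl, hv, fun y hy => ?_⟩
      have h1 : SS N M y ≤ SS N M z0 := hmax0 hy
      rw [h, SS_half] at h1
      linarith
    · exact ⟨z0, hz0.1, h, fun y hy => hmax0 hy⟩
  have hS : 0 ≤ SS N M z := hcon.trans (hmax v ⟨le_rfl, hv.le⟩)
  have hz0' : 0 < z := by linarith
  obtain ⟨w, w1, w2, w3⟩ := exists_right (hasDerivAt_SS N M hz0' (by linarith))
    (dSS_pos_of_le N M hz0' hz2 hS hNM) hz2
  have := hmax w ⟨by linarith, w2.le⟩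
  linarith

lemma antiK (N M : ℕ) {z : ℝ} (h0 : 0 < z) (hS : 0 ≤ SS N M z) (hd : dSS N M z ≤ 0)
    (hNM : ((M : ℝ) + 1) * log 2 < N + 1) : StrictAntiOn (SS N M) (Icc z (1 / 2)) := by
  apply strictAntiOn_of_deriv_neg (convex_Icc _ _)
  · exact (continuousOn_SS N M).mono (Icc_subset_Icc h0.le (by norm_num))
  · intro u hu
    rw [interior_Icc] at hu
    rw [(hasDerivAt_SS N M (by linarith [hu.1]) (by linarith [hu.2])).deriv]
    exact lemK N M h0 hS hd hNM u hu.1 hu.2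

theorem shapeB (N M : ℕ) (hNM : ((M : ℝ) + 1) * log 2 < N + 1) :
    ∃ z, 0 < z ∧ z < 1 / 2 ∧ StrictAntiOn (SS N M) (Icc z (1 / 2)) ∧
      ∀ v w, 0 < v → v < w → w ≤ z → 0 ≤ SS N M v → SS N M v < SS N M w := by
  have hc : ContinuousOn (SS N M) (Icc 0 (1 / 2)) :=
    (continuousOn_SS N M).mono (Icc_subset_Icc le_rfl (by norm_num))
  obtain ⟨z, hz, hmax⟩ := isCompact_Icc.exists_isMaxOn
    (nonempty_Icc.mpr (by norm_num : (0 : ℝ) ≤ 1 / 2)) hc
  have hmax' : ∀ y ∈ Icc (0 : ℝ) (1 / 2), SS N M y ≤ SS N M z := fun y hy => hmax hy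
  have hpos : 0 < SS N M z := by
    have hd : dSS N M (1 / 2) < 0 := by
      unfold dSS
      have h2 : (0 : ℝ) < log 2 := Real.log_pos (by norm_num)
      have h3 : -log (1 / 2 : ℝ) = log 2 := by rw [one_div, Real.log_inv, neg_neg]
      rw [show (1 : ℝ) - 1 / 2 = 1 / 2 by norm_num, h3]
      have h4 : 0 < log 2 ^ N * (1 / 2) ^ M := by positivity
      have h5 := mul_lt_mul_of_pos_left hNM h4
      nlinarith
    obtain ⟨w, w1, w2, w3⟩ := exists_left (hasDerivAt_SS N M (by norm_num) (by norm_num)) hd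
      (by norm_num : (0 : ℝ) < 1 / 2)
    rw [SS_half] at w3
    exact w3.trans_le (hmax' w ⟨w1.le, w2.le⟩)
  have hz0 : 0 < z := by
    rcases hz.1.eq_or_lt with h | h
    · rw [← h, SS_zero] at hpos
      exact absurd hpos (lt_irrefl _)
    · exact h
  have hz1 : z < 1 / 2 := by
    rcases hz.2.eq_or_lt with h | h
    · rw [h, SS_half] at hpos
      exact absurd hpos (lt_irrefl _)
    · exact h
  have hdz : dSS N M z = 0 := by
    have hloc : IsLocalMax (SS N M) z := hmax.isLocalMax (Icc_mem_nhds hz0 hz1)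
    exact hloc.hasDerivAt_eq_zero (hasDerivAt_SS N M hz0 (by linarith))
  refine ⟨z, hz0, hz1, antiK N M hz0 hpos.le hdz.le hNM, ?_⟩
  intro v w hv hvw hwz hSv
  by_contra hcon
  push Not at hcon
  have hc' : ContinuousOn (SS N M) (Icc v w) :=
    hc.mono (Icc_subset_Icc hv.le (by linarith))
  obtain ⟨y0, hy0, hm0⟩ := isCompact_Icc.exists_isMaxOn (nonempty_Icc.mpr hvw.le) hc'
  obtain ⟨y, hy1, hy2, hm⟩ : ∃ y, v ≤ y ∧ y < w ∧ ∀ x ∈ Icc v w, SS N M x ≤ SS N M y := by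
    rcases hy0.2.eq_or_lt with h | h
    · refine ⟨v, le_rfl, hvw, fun x hx => ?_⟩
      have h1 : SS N M x ≤ SS N M y0 := hm0 hx
      rw [h] at h1
      linarith
    · exact ⟨y0, hy0.1, h, fun x hx => hm0 hx⟩
  have hSy : 0 ≤ SS N M y := hSv.trans (hm v ⟨le_rfl, hvw.le⟩)
  have hy0' : 0 < y := by linarith
  have hdy : dSS N M y ≤ 0 := by
    by_contra hpos'
    push Not at hpos'
    obtain ⟨x, x1, x2, x3⟩ := exists_right (hasDerivAt_SS N M hy0' (by linarith)) hpos' hy2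
    have := hm x ⟨by linarith, x2.le⟩
    linarith
  have hanti := antiK N M hy0' hSy hdy hNM
  have h1 := hanti ⟨le_rfl, by linarith⟩ ⟨by linarith, hz1.le⟩ (by linarith : y < z)
  have h2 := hmax' y ⟨hy0'.le, by linarith⟩
  linarith

end V11309.KRec
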